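import Pool.Agent.H35.KL.Defs

/-!
# Expanding the square, with the total of the cross terms

Copy of `bkx` of KM (Pool/Agent/H35/KM/Bkx.lean) with the bound of each cross term `E a a'` depending
on the pair; the same proof (its private lemmas have to be copied).
-/

set_option autoImplicit false

namespace Pool.Agent.H35.KL

open Finset
open Pool.Agent.H80.KF

private theorem Bk2_pt (Q R : ℕ) (A : Finset ℤ) (cf : ℤ → ℕ → ℝ)
    (hcf : ∀ a q, |cf a q| ≤ 1) (M : ℝ) (hM0 : 0 ≤ M)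
    (hM : ∀ a ∈ A, ∀ n ∈ A, a ≠ n → SA R Q a n ≤ M) (hC : ∀ a ∈ A, SA R Q a a ≤ Q)
    (a a' : ℤ) (ha : a ∈ A) (ha' : a' ∈ A) (haa : a ≠ a') (n : ℤ) (hn : n ∈ A) :
    |SS R Q (cf a) a n| * |SS R Q (cf a') a' n| ≤
      M ^ 2 + (if n = a then (Q : ℝ) * M else 0) + (if n = a' then (Q : ℝ) * M else 0) := by
  have hQ : (0 : ℝ) ≤ Q := Nat.cast_nonneg Q
  have hQM : (0 : ℝ) ≤ Q * M := mul_nonneg hQ hM0
  have hM2 : (0 : ℝ) ≤ M ^ 2 := sq_nonneg M
  have h1 := ss_le_sa R Q (cf a) (hcf a) a n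
  have h2 := ss_le_sa R Q (cf a') (hcf a') a' n
  by_cases hna : n = a
  · subst hna
    have h3 := hC n ha
    have h4 := hM a' ha' n hn haa.symm
    have h5 : |SS R Q (cf n) n n| * |SS R Q (cf a') a' n| ≤ Q * M :=
      mul_le_mul (h1.trans h3) (h2.trans h4) (abs_nonneg _) hQ
    rw [if_pos rfl]
    split_ifs <;> linarith
  · have h3 := hM a ha n hn (Ne.symm hna)
    by_cases hna' : n = a'
    · subst hna'
      have h4 := hC n ha'
      have h5 : |SS R Q (cf a) a n| * |SS R Q (cf n) n n| ≤ M * Q :=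
        mul_le_mul (h1.trans h3) (h2.trans h4) (abs_nonneg _) hM0
      rw [if_neg hna, if_pos rfl]
      linarith
    · have h4 := hM a' ha' n hn (Ne.symm hna')
      have h5 : |SS R Q (cf a) a n| * |SS R Q (cf a') a' n| ≤ M * M :=
        mul_le_mul (h1.trans h3) (h2.trans h4) (abs_nonneg _) hM0
      rw [if_neg hna, if_neg hna']
      nlinarith

private theorem Bk2_off (x Q R J : ℕ) (hx : 1 ≤ x) (hJ : 1 ≤ J) (A : Finset ℤ) (cf : ℤ → ℕ → ℝ)
    (hcf : ∀ a q, |cf a q| ≤ 1) (E M : ℝ) (hM0 : 0 ≤ M)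
    (hM : ∀ a ∈ A, ∀ n ∈ A, a ≠ n → SA R Q a n ≤ M) (hC : ∀ a ∈ A, SA R Q a a ≤ Q)
    (a a' : ℤ) (ha : a ∈ A) (ha' : a' ∈ A) (haa : a ≠ a')
    (hE : |∑ n ∈ RW x J, ww x J n * (SS R Q (cf a) a n * SS R Q (cf a') a' n)| ≤ E) :
    ∑ n ∈ (RW x J).filter (fun n => n ∉ A), ww x J n *
        (SS R Q (cf a) a n * SS R Q (cf a') a' n) ≤
      E + 3 * A.card * M ^ 2 + 6 * Q * M := by
  have h1 := Finset.sum_filter_add_sum_filter_not (RW x J) (fun n => n ∉ A)
    (fun n => ww x J n * (SS R Q (cf a) a n * SS R Q (cf a') a' n))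
  have h2 := (abs_le.1 hE).2
  have h3 : -(∑ n ∈ (RW x J).filter (fun n => ¬ n ∉ A), ww x J n *
      (SS R Q (cf a) a n * SS R Q (cf a') a' n)) ≤
      ∑ n ∈ A, 3 * (M ^ 2 + (if n = a then (Q : ℝ) * M else 0) +
        (if n = a' then (Q : ℝ) * M else 0)) := by
    rw [← Finset.sum_neg_distrib]
    have hnn : ∀ n, 0 ≤ 3 * (M ^ 2 + (if n = a then (Q : ℝ) * M else 0) +
        (if n = a' then (Q : ℝ) * M else 0)) := by
      intro n
      have hQM : (0 : ℝ) ≤ Q * M := mul_nonneg (Nat.cast_nonneg Q) hM0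
      have hM2 : (0 : ℝ) ≤ M ^ 2 := sq_nonneg M
      split_ifs <;> linarith
    refine le_trans (Finset.sum_le_sum fun n hn => ?_)
      (Finset.sum_le_sum_of_subset_of_nonneg (s := (RW x J).filter (fun n => ¬ n ∉ A)) ?_
        fun n _ _ => hnn n)
    · have hnA : n ∈ A := not_not.1 (Finset.mem_filter.1 hn).2
      have h4 := Bk2_pt Q R A cf hcf M hM0 hM hC a a' ha ha' haa n hnA
      have h5 := ww_nonneg x J n
      have h6 := ww_le x J hx hJ n
      have h7 : -(ww x J n * (SS R Q (cf a) a n * SS R Q (cf a') a' n)) ≤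
          ww x J n * (|SS R Q (cf a) a n| * |SS R Q (cf a') a' n|) := by
        rw [← abs_mul, ← mul_neg]
        exact mul_le_mul_of_nonneg_left (neg_le_abs _) h5
      refine h7.trans ?_
      exact mul_le_mul h6 h4 (mul_nonneg (abs_nonneg _) (abs_nonneg _)) (by norm_num)
    · intro n hn
      exact not_not.1 (Finset.mem_filter.1 hn).2
  have h4 : ∑ n ∈ A, 3 * (M ^ 2 + (if n = a then (Q : ℝ) * M else 0) +
        (if n = a' then (Q : ℝ) * M else 0)) = 3 * (A.card * M ^ 2 + Q * M + Q * M) := by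
    rw [← Finset.mul_sum, Finset.sum_add_distrib, Finset.sum_add_distrib, Finset.sum_const,
      Finset.sum_ite_eq' A a, Finset.sum_ite_eq' A a', if_pos ha, if_pos ha', nsmul_eq_mul]
  rw [h4] at h3
  linarith

theorem bk2 (x Q R J : ℕ) (hx : 1 ≤ x) (hJ : 1 ≤ J) (A : Finset ℤ) (cf : ℤ → ℕ → ℝ)
    (hcf : ∀ a q, |cf a q| ≤ 1) (D M : ℝ) (E : ℤ → ℤ → ℝ) (hM0 : 0 ≤ M) (hE0 : ∀ a a', 0 ≤ E a a')
    (hD : ∑ a ∈ A, ∑ n ∈ (RW x J).filter (fun n => n ≠ a), ww x J n * SS R Q (cf a) a n ^ 2 ≤ D)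
    (hE : ∀ a ∈ A, ∀ a' ∈ A, a ≠ a' →
      |∑ n ∈ RW x J, ww x J n * (SS R Q (cf a) a n * SS R Q (cf a') a' n)| ≤ E a a')
    (hM : ∀ a ∈ A, ∀ n ∈ A, a ≠ n → SA R Q a n ≤ M) (hC : ∀ a ∈ A, SA R Q a a ≤ Q) :
    ∑ n ∈ (RW x J).filter (fun n => n ∉ A), ww x J n * (∑ a ∈ A, SS R Q (cf a) a n) ^ 2 ≤
      D + ∑ a ∈ A, ∑ a' ∈ A, E a a' + (A.card : ℝ) ^ 2 * (3 * A.card * M ^ 2 + 6 * Q * M) := by
  classical
  set B : ℝ := 3 * A.card * M ^ 2 + 6 * Q * M with hB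
  have hB0 : 0 ≤ B := by
    have h1 : (0 : ℝ) ≤ 3 * A.card * M ^ 2 := by positivity
    have h2 : (0 : ℝ) ≤ 6 * Q * M := by positivity
    linarith
  set Dg : ℤ → ℝ := fun a =>
    ∑ n ∈ (RW x J).filter (fun n => n ≠ a), ww x J n * SS R Q (cf a) a n ^ 2 with hDg
  have h1 : ∑ n ∈ (RW x J).filter (fun n => n ∉ A), ww x J n * (∑ a ∈ A, SS R Q (cf a) a n) ^ 2 =
      ∑ a ∈ A, ∑ a' ∈ A, ∑ n ∈ (RW x J).filter (fun n => n ∉ A), ww x J n *
        (SS R Q (cf a) a n * SS R Q (cf a') a' n) := by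
    have h2 : ∀ n, ww x J n * (∑ a ∈ A, SS R Q (cf a) a n) ^ 2 =
        ∑ a ∈ A, ∑ a' ∈ A, ww x J n * (SS R Q (cf a) a n * SS R Q (cf a') a' n) := by
      intro n
      rw [pow_two, Finset.sum_mul_sum, Finset.mul_sum]
      exact Finset.sum_congr rfl fun a _ => Finset.mul_sum _ _ _
    rw [Finset.sum_congr rfl fun n _ => h2 n, Finset.sum_comm]
    exact Finset.sum_congr rfl fun a _ => Finset.sum_comm
  rw [h1]
  have h3 : ∀ a ∈ A, ∀ a' ∈ A, ∑ n ∈ (RW x J).filter (fun n => n ∉ A), ww x J n *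
      (SS R Q (cf a) a n * SS R Q (cf a') a' n) ≤
        (if a' = a then Dg a else 0) + (E a a' + B) := by
    intro a ha a' ha'
    by_cases haa : a' = a
    · subst haa
      rw [if_pos rfl]
      have h5 : ∑ n ∈ (RW x J).filter (fun n => n ∉ A), ww x J n *
          (SS R Q (cf a') a' n * SS R Q (cf a') a' n) ≤
          ∑ n ∈ (RW x J).filter (fun n => n ≠ a'), ww x J n * SS R Q (cf a') a' n ^ 2 := by
        simp only [← pow_two]
        refine Finset.sum_le_sum_of_subset_of_nonneg ?_ fun n _ _ =>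
          mul_nonneg (ww_nonneg x J n) (sq_nonneg _)
        intro n hn
        rw [Finset.mem_filter] at hn ⊢
        exact ⟨hn.1, fun h => hn.2 (h ▸ ha)⟩
      have h6 : Dg a' =
          ∑ n ∈ (RW x J).filter (fun n => n ≠ a'), ww x J n * SS R Q (cf a') a' n ^ 2 := rfl
      have h7 := hE0 a' a'
      linarith
    · rw [if_neg haa, zero_add]
      have h5 := Bk2_off x Q R J hx hJ A cf hcf (E a a') M hM0 hM hC a a' ha ha' (Ne.symm haa)
        (hE a ha a' ha' (Ne.symm haa))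
      linarith
  refine le_trans (Finset.sum_le_sum fun a ha => Finset.sum_le_sum fun a' ha' => h3 a ha a' ha') ?_
  have h6 : ∀ a ∈ A, ∑ a' ∈ A, ((if a' = a then Dg a else 0) + (E a a' + B)) =
      Dg a + (∑ a' ∈ A, E a a' + A.card * B) := by
    intro a ha
    rw [Finset.sum_add_distrib, Finset.sum_add_distrib, Finset.sum_const, nsmul_eq_mul,
      Finset.sum_ite_eq' A a, if_pos ha]
  rw [Finset.sum_congr rfl h6, Finset.sum_add_distrib, Finset.sum_add_distrib, Finset.sum_const,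
    nsmul_eq_mul]
  have h7 : (A.card : ℝ) * (A.card * B) = (A.card : ℝ) ^ 2 * B := by ring
  rw [h7]
  have h8 : ∑ a ∈ A, Dg a ≤ D := hD
  linarith

end Pool.Agent.H35.KL
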