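import Pool.Agent.H35.KL.Defs

/-!
# The second Cauchy step, `ℓ²` form

Copy of `cau` of KF (Pool/Agent/H80/KF/Cau.lean); only `Cau_first` changes: `UU` is a sum over
`(m₁,m₂)` of `α m₁ · conj (α m₂) · ∑_τ gg`, so by Cauchy-Schwarz
`‖UU‖² ≤ (∑_{m₁,m₂} ‖α m₁‖² ‖α m₂‖²) (∑_{m₁,m₂} ‖∑_τ gg‖²)`, and the first sum is `(n2 (II N) α)²`.
The private lemmas `Cau_second`, `Cau_diag`, `Cau_diag'` have to be copied, `adm_count` is public.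
-/

set_option autoImplicit false

namespace Pool.Agent.H35.KL

open Finset
open Pool.Agent.H80.KF

private theorem Ca_first (N P : ℕ) (η : ℤ) (α : ℕ → ℂ) (F : ℝ → ℂ) :
    ‖UU F η N P α‖ ^ 2 ≤
      n2 (II N) α ^ 2 * ∑ m1 ∈ II N, ∑ m2 ∈ II N, ‖∑ τ ∈ TT P, gg F η N τ m1 m2‖ ^ 2 := by
  have h1 : ‖UU F η N P α‖ ≤ ∑ t ∈ II N ×ˢ II N,
      (‖α t.1‖ * ‖α t.2‖) * ‖∑ τ ∈ TT P, gg F η N τ t.1 t.2‖ := by
    unfold UU
    rw [sum_product]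
    refine (norm_sum_le _ _).trans (sum_le_sum fun m1 _ => ?_)
    refine (norm_sum_le _ _).trans (sum_le_sum fun m2 _ => ?_)
    rw [norm_mul, norm_mul, RCLike.norm_conj]
  have h3 := Finset.sum_mul_sq_le_sq_mul_sq (II N ×ˢ II N) (fun t => ‖α t.1‖ * ‖α t.2‖)
    (fun t => ‖∑ τ ∈ TT P, gg F η N τ t.1 t.2‖)
  have h4 : ∑ m1 ∈ II N, ∑ m2 ∈ II N, ‖∑ τ ∈ TT P, gg F η N τ m1 m2‖ ^ 2 =
      ∑ t ∈ II N ×ˢ II N, ‖∑ τ ∈ TT P, gg F η N τ t.1 t.2‖ ^ 2 := by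
    rw [sum_product]
  have h5 : n2 (II N) α ^ 2 = ∑ t ∈ II N ×ˢ II N, (‖α t.1‖ * ‖α t.2‖) ^ 2 := by
    unfold n2
    rw [sum_product, sq, sum_mul_sum]
    refine sum_congr rfl fun m1 _ => sum_congr rfl fun m2 _ => ?_
    rw [mul_pow]
  rw [h4, h5]
  exact (pow_le_pow_left₀ (norm_nonneg _) h1 2).trans h3

/-- the square of a sum is the double sum, split into the diagonal and the rest -/
private theorem Ca_second (N P : ℕ) (η : ℤ) (F : ℝ → ℂ) :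
    ∑ m1 ∈ II N, ∑ m2 ∈ II N, ‖∑ τ ∈ TT P, gg F η N τ m1 m2‖ ^ 2 ≤
      (∑ t ∈ (TT P ×ˢ TT P).filter (fun t => Diag t.1 t.2), ∑ m1 ∈ II N, ∑ m2 ∈ II N,
        ‖gg F η N t.1 m1 m2‖ * ‖gg F η N t.2 m1 m2‖) + OO F η N P := by
  have h1 : ∀ m1 m2 : ℕ, ((‖∑ τ ∈ TT P, gg F η N τ m1 m2‖ ^ 2 : ℝ) : ℂ) =
      ∑ t ∈ TT P ×ˢ TT P, gg F η N t.1 m1 m2 * (starRingEnd ℂ) (gg F η N t.2 m1 m2) := by
    intro m1 m2
    rw [sum_product]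
    rw [← Complex.normSq_eq_norm_sq, Complex.normSq_eq_conj_mul_self, mul_comm, map_sum,
      sum_mul_sum]
  have h2 : ((∑ m1 ∈ II N, ∑ m2 ∈ II N, ‖∑ τ ∈ TT P, gg F η N τ m1 m2‖ ^ 2 : ℝ) : ℂ) =
      ∑ t ∈ TT P ×ˢ TT P, ∑ m1 ∈ II N, ∑ m2 ∈ II N,
        gg F η N t.1 m1 m2 * (starRingEnd ℂ) (gg F η N t.2 m1 m2) := by
    push_cast
    have h3 : ∀ m1 m2 : ℕ, ((‖∑ τ ∈ TT P, gg F η N τ m1 m2‖ : ℝ) : ℂ) ^ 2 =
        ∑ t ∈ TT P ×ˢ TT P, gg F η N t.1 m1 m2 * (starRingEnd ℂ) (gg F η N t.2 m1 m2) := by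
      intro m1 m2
      rw [← h1]
      push_cast
      rfl
    simp only [h3]
    calc ∑ m1 ∈ II N, ∑ m2 ∈ II N, ∑ t ∈ TT P ×ˢ TT P,
          gg F η N t.1 m1 m2 * (starRingEnd ℂ) (gg F η N t.2 m1 m2)
        = ∑ m1 ∈ II N, ∑ t ∈ TT P ×ˢ TT P, ∑ m2 ∈ II N,
          gg F η N t.1 m1 m2 * (starRingEnd ℂ) (gg F η N t.2 m1 m2) :=
          sum_congr rfl fun m1 _ => sum_comm
      _ = _ := sum_comm
  have h5 : ∑ m1 ∈ II N, ∑ m2 ∈ II N, ‖∑ τ ∈ TT P, gg F η N τ m1 m2‖ ^ 2 =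
      ‖∑ t ∈ TT P ×ˢ TT P, ∑ m1 ∈ II N, ∑ m2 ∈ II N,
        gg F η N t.1 m1 m2 * (starRingEnd ℂ) (gg F η N t.2 m1 m2)‖ := by
    rw [← h2, Complex.norm_real, Real.norm_of_nonneg]
    exact sum_nonneg fun _ _ => sum_nonneg fun _ _ => by positivity
  rw [h5, ← sum_filter_add_sum_filter_not (TT P ×ˢ TT P) (fun t => Diag t.1 t.2)]
  refine (norm_add_le _ _).trans (add_le_add ?_ ?_)
  · refine (norm_sum_le _ _).trans (sum_le_sum fun t _ => ?_)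
    refine (norm_sum_le _ _).trans (sum_le_sum fun m1 _ => ?_)
    refine (norm_sum_le _ _).trans (sum_le_sum fun m2 _ => ?_)
    rw [norm_mul, RCLike.norm_conj]
  · unfold OO
    refine (norm_sum_le _ _).trans (sum_le_sum fun t _ => ?_)
    exact norm_sum_le _ _

private theorem Ca_diag (T : Finset (ℕ × ℕ × ℤ)) (w : (ℕ × ℕ × ℤ) → ℝ) (hw : ∀ τ, 0 ≤ w τ) :
    ∑ t ∈ (T ×ˢ T).filter (fun t => Diag t.1 t.2), w t.1 ≤ 2 * ∑ τ ∈ T, w τ := by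
  rw [sum_filter, sum_product, mul_sum]
  refine sum_le_sum fun τ _ => ?_
  rw [← sum_filter]
  simp only [sum_const, nsmul_eq_mul]
  apply mul_le_mul_of_nonneg_right _ (hw τ)
  have h : (T.filter (fun x => Diag τ x)) ⊆ {τ, (τ.2.1, τ.1, -τ.2.2)} := by
    intro x hx
    have := (mem_filter.1 hx).2
    unfold Diag at this
    simpa using this
  calc (((T.filter (fun x => Diag τ x)).card : ℕ) : ℝ)
      ≤ ((({τ, (τ.2.1, τ.1, -τ.2.2)} : Finset (ℕ × ℕ × ℤ)).card : ℕ) : ℝ) := by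
        exact_mod_cast card_le_card h
    _ ≤ 2 := by exact_mod_cast card_le_two

private theorem Ca_diag' (T : Finset (ℕ × ℕ × ℤ)) (w : (ℕ × ℕ × ℤ) → ℝ) (hw : ∀ τ, 0 ≤ w τ) :
    ∑ t ∈ (T ×ˢ T).filter (fun t => Diag t.1 t.2), w t.2 ≤ 2 * ∑ τ ∈ T, w τ := by
  rw [sum_filter, sum_product_right, mul_sum]
  refine sum_le_sum fun τ _ => ?_
  rw [← sum_filter]
  simp only [sum_const, nsmul_eq_mul]
  apply mul_le_mul_of_nonneg_right _ (hw τ)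
  have h : (T.filter (fun x => Diag x τ)) ⊆ {τ, (τ.2.1, τ.1, -τ.2.2)} := by
    intro x hx
    have h1 := (mem_filter.1 hx).2
    unfold Diag at h1
    rw [mem_insert, mem_singleton]
    rcases h1 with h1 | h1
    · exact Or.inl h1.symm
    · right
      rw [h1]
      simp
  calc (((T.filter (fun x => Diag x τ)).card : ℕ) : ℝ)
      ≤ ((({τ, (τ.2.1, τ.1, -τ.2.2)} : Finset (ℕ × ℕ × ℤ)).card : ℕ) : ℝ) := by
        exact_mod_cast card_le_card h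
    _ ≤ 2 := by exact_mod_cast card_le_two

theorem cau2 (N P : ℕ) (hN : 1 ≤ N) (η : ℤ) (α : ℕ → ℂ) (F : ℝ → ℂ) (hF : ∀ y, ‖F y‖ ≤ 1) :
    ‖UU F η N P α‖ ^ 2 ≤
      n2 (II N) α ^ 2 * (2 * ((2 * N) ^ 2 * ((PP P).card : ℝ) ^ 2) + OO F η N P) := by
  refine (Ca_first N P η α F).trans ?_
  apply mul_le_mul_of_nonneg_left _ (by positivity)
  refine (Ca_second N P η F).trans ?_
  apply add_le_add _ le_rfl
  set w : (ℕ × ℕ × ℤ) → ℝ := fun τ => ∑ m1 ∈ II N, ∑ m2 ∈ II N, ‖gg F η N τ m1 m2‖ ^ 2 with hw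
  have hw0 : ∀ τ, 0 ≤ w τ := fun τ => sum_nonneg fun _ _ => sum_nonneg fun _ _ => by positivity
  have hc : ∑ τ ∈ TT P, w τ ≤ (2 * N) ^ 2 * ((PP P).card : ℝ) ^ 2 := adm_count N P hN F hF η
  have h1 : ∑ t ∈ (TT P ×ˢ TT P).filter (fun t => Diag t.1 t.2), ∑ m1 ∈ II N, ∑ m2 ∈ II N,
      ‖gg F η N t.1 m1 m2‖ * ‖gg F η N t.2 m1 m2‖ ≤
      ∑ t ∈ (TT P ×ˢ TT P).filter (fun t => Diag t.1 t.2), (w t.1 / 2 + w t.2 / 2) := by
    refine sum_le_sum fun t _ => ?_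
    rw [hw]
    simp only
    rw [sum_div, sum_div, ← sum_add_distrib]
    refine sum_le_sum fun m1 _ => ?_
    rw [sum_div, sum_div, ← sum_add_distrib]
    refine sum_le_sum fun m2 _ => ?_
    nlinarith [sq_nonneg (‖gg F η N t.1 m1 m2‖ - ‖gg F η N t.2 m1 m2‖)]
  refine h1.trans ?_
  rw [sum_add_distrib, ← sum_div, ← sum_div]
  have h2 := Ca_diag (TT P) w hw0
  have h3 := Ca_diag' (TT P) w hw0
  linarith

end Pool.Agent.H35.KL
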