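import Pool.Agent.H94.EH.M39

/-!
# Project KL: definitions

The `ℓ²` form of the bilinear estimate with Kloosterman fractions; Elliott-Halberstam beyond
`x^{1/2}` with the maximum over sets of `x^κ` residues, level `x^{101/200 - κ/2}`, `κ < 1/100`.
-/

set_option autoImplicit false

namespace Pool.Agent.H35.KL

open Finset

/-- the level `x^{101/200 - κ/2}` -/
noncomputable def QL (κ : ℝ) (x : ℕ) : ℕ := ⌊(x : ℝ) ^ ((101 : ℝ) / 200 - κ / 2)⌋₊

/-- the square of the `ℓ²` norm of a complex function on a set -/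
noncomputable def n2 (S : Finset ℕ) (f : ℕ → ℂ) : ℝ := ∑ m ∈ S, ‖f m‖ ^ 2

/-- the square of the `ℓ²` norm of a real function on a set -/
noncomputable def r2 (S : Finset ℕ) (f : ℕ → ℝ) : ℝ := ∑ m ∈ S, f m ^ 2

theorem n2_nonneg (S : Finset ℕ) (f : ℕ → ℂ) : 0 ≤ n2 S f :=
  sum_nonneg fun _ _ => by positivity

theorem r2_nonneg (S : Finset ℕ) (f : ℕ → ℝ) : 0 ≤ r2 S f :=
  sum_nonneg fun _ _ => by positivity

end Pool.Agent.H35.KL
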