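import Pool.Agent.H35.KL.Bl

/-!
# All moduli, and residues of both signs

`dy_one`: as `dysum` of KF (DyS.lean): the moduli `2 ≤ q ≤ QL κ x` lie in at most `log x` blocks,
`ext_err_one`, `ext_dyadic` with `F q = ∑_{a ∈ T q} |err y q a|`, `bl (c+1)`.
`dy`: the nonnegative and the negative elements of `A` (and of `T q`) separately, each satisfies
`Adx`; `dy_one (c+1)` twice.
-/

set_option autoImplicit false

namespace Pool.Agent.H35.KL

open Finset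
open Pool.Agent.H91.EHA (err)
open Pool.Agent.H80.KF
open Pool.Agent.H35.KM (RR Sel Adx)

theorem dy_one (κ : ℝ) (h0 : 0 ≤ κ) (h1 : κ < 1 / 100) (c : ℕ) : ∃ x0 : ℕ, ∀ x : ℕ, x0 ≤ x →
    ∀ A : Finset ℤ, Adx x A → (A.card : ℝ) ≤ (x : ℝ) ^ (κ + (1 / 100 - κ) / 200) →
    ∀ M : ℕ, 1 ≤ M → ∀ T : ℕ → Finset ℤ, Sel A M T → ∀ y : ℕ, y ≤ x →
    ∑ q ∈ Icc 1 (QL κ x), ∑ a ∈ T q, |err y q (a : ZMod q)| ≤
      Real.sqrt M * x * Real.log x ^ 4 / 4 + M * x / Real.log x ^ c := by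
  classical
  obtain ⟨x1, hb1⟩ := bl2 κ h0 h1 (c + 1)
  refine ⟨max x1 (max 1 ⌈Real.exp 4⌉₊), fun x hx A hA hcard M hM T hT y hy => ?_⟩
  have hx1 : x1 ≤ x := (le_max_left _ _).trans hx
  have hx2 : 1 ≤ x := (le_max_left _ _).trans ((le_max_right _ _).trans hx)
  have hx3 : ⌈Real.exp 4⌉₊ ≤ x := (le_max_right _ _).trans ((le_max_right _ _).trans hx)
  have hx4 : Real.exp 4 ≤ x := (Nat.le_ceil _).trans (by exact_mod_cast hx3)
  have hxpos : (0 : ℝ) < x := by exact_mod_cast hx2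
  have hxone : (1 : ℝ) ≤ x := by exact_mod_cast hx2
  set L := Real.log x with hL
  have hL4 : 4 ≤ L := by
    rw [hL, Real.le_log_iff_exp_le hxpos]
    exact hx4
  have hLpos : 0 < L := by linarith
  have hQr : (QL κ x : ℝ) ≤ (x : ℝ) ^ ((101 : ℝ) / 200 - κ / 2) := Nat.floor_le (by positivity)
  have hQ1 : 1 ≤ QL κ x := by
    rw [QL, Nat.one_le_floor_iff]
    exact Real.one_le_rpow hxone (by linarith)
  set Q := QL κ x with hQ
  set J := Nat.log 2 Q + 1 with hJ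
  have hQJ : Q < 2 ^ J := Nat.lt_pow_succ_log_self (by norm_num) Q
  have hJL : (J : ℝ) ≤ L := by
    have e1 : 2 ^ (Nat.log 2 Q) ≤ Q := Nat.pow_log_le_self 2 (by omega)
    have e2 : ((2 : ℝ)) ^ (Nat.log 2 Q) ≤ (x : ℝ) ^ ((101 : ℝ) / 200 - κ / 2) :=
      le_trans (by exact_mod_cast e1) hQr
    have e3 := Real.log_le_log (by positivity) e2
    rw [Real.log_pow, Real.log_rpow hxpos, ← hL] at e3
    have e4 : (0.6931471803 : ℝ) < Real.log 2 := Real.log_two_gt_d9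
    have e5 : (0 : ℝ) ≤ (Nat.log 2 Q : ℕ) := Nat.cast_nonneg _
    have e6 : 0 ≤ κ * L := by positivity
    rw [hJ]
    push_cast
    nlinarith
  set b : ℝ := Real.sqrt M * x * L ^ 3 / 4 + M * x / L ^ (c + 1) with hb
  have hb0 : 0 ≤ b := by positivity
  have hblock : ∀ j : ℕ, j < J → 2 ^ j ≤ Q → ∑ q ∈ Ioc ((2 : ℕ) ^ j) (2 * (2 : ℕ) ^ j),
      (∑ a ∈ T q, |err y q (a : ZMod q)|) ≤ b := by
    intro j _ hjM
    exact hb1 x (2 ^ j) hx1 Nat.one_le_two_pow (le_trans (by exact_mod_cast hjM) hQr) A hA hcard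
      M hM T hT y hy
  have key := ext_dyadic (fun q => ∑ a ∈ T q, |err y q (a : ZMod q)|)
    (fun q => sum_nonneg fun a _ => abs_nonneg _) Q J hQJ
    (sum_eq_zero fun a _ => by rw [ext_err_one, abs_zero]) b hb0 hblock
  refine key.trans ((mul_le_mul_of_nonneg_right hJL hb0).trans (le_of_eq ?_))
  rw [hb]
  have hLc : L ^ (c + 1) = L * L ^ c := by ring
  have hL0 : L ≠ 0 := hLpos.ne'
  have hLc0 : L ^ c ≠ 0 := pow_ne_zero _ hL0
  rw [hLc]
  field_simp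

theorem dy (κ : ℝ) (h0 : 0 ≤ κ) (h1 : κ < 1 / 100) (c : ℕ) : ∃ x0 : ℕ, ∀ x : ℕ, x0 ≤ x →
    ∀ A : Finset ℤ, (∀ a ∈ A, |a| ≤ x) →
    (A.card : ℝ) ≤ (x : ℝ) ^ (κ + (1 / 100 - κ) / 200) →
    ∀ M : ℕ, 1 ≤ M → ∀ T : ℕ → Finset ℤ, Sel A M T → ∀ y : ℕ, y ≤ x →
    ∑ q ∈ Icc 1 (QL κ x), ∑ a ∈ T q, |err y q (a : ZMod q)| ≤
      Real.sqrt M * x * Real.log x ^ 4 + M * x / Real.log x ^ c := by
  classical
  obtain ⟨x1, hd1⟩ := dy_one κ h0 h1 (c + 1)
  refine ⟨max x1 (max 1 ⌈Real.exp 4⌉₊), fun x hx A hA hcard M hM T hT y hy => ?_⟩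
  have hx1 : x1 ≤ x := (le_max_left _ _).trans hx
  have hx2 : 1 ≤ x := (le_max_left _ _).trans ((le_max_right _ _).trans hx)
  have hx3 : ⌈Real.exp 4⌉₊ ≤ x := (le_max_right _ _).trans ((le_max_right _ _).trans hx)
  have hx4 : Real.exp 4 ≤ x := (Nat.le_ceil _).trans (by exact_mod_cast hx3)
  have hxpos : (0 : ℝ) < x := by exact_mod_cast hx2
  have hL4 : 4 ≤ Real.log x := by
    rw [Real.le_log_iff_exp_le hxpos]
    exact hx4
  have hd1' := hd1 x hx1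
  set L := Real.log x with hLdef
  have hL0 : 0 < L := by linarith
  have part : ∀ (P : ℤ → Prop) [DecidablePred P], (∀ a a', |a| ≤ (x : ℤ) → |a'| ≤ (x : ℤ) →
      P a → P a' → |a' - a| ≤ (x : ℤ)) →
      ∑ q ∈ Icc 1 (QL κ x), ∑ a ∈ (T q).filter P, |err y q (a : ZMod q)| ≤
        Real.sqrt M * x * L ^ 4 / 4 + M * x / L ^ (c + 1) := by
    intro P _ hP
    refine hd1' (A.filter P) ⟨fun a ha => hA a (mem_filter.1 ha).1, fun a ha a' ha' =>
      hP a a' (hA a (mem_filter.1 ha).1) (hA a' (mem_filter.1 ha').1) (mem_filter.1 ha).2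
        (mem_filter.1 ha').2⟩ ?_ M hM (fun q => (T q).filter P) ?_ y hy
    · refine le_trans ?_ hcard
      exact_mod_cast card_le_card (filter_subset _ _)
    · intro q
      obtain ⟨g1, g2, g3⟩ := hT q
      exact ⟨filter_subset_filter _ g1, (card_le_card (filter_subset _ _)).trans g2,
        fun a ha => g3 a (mem_filter.1 ha).1⟩
  have hp := part (fun a => 0 ≤ a) (by
    intro a a' e1 e2 e3 e4
    rw [abs_le] at *
    constructor <;> linarith [e1.2, e2.2])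
  have hn := part (fun a => ¬ 0 ≤ a) (by
    intro a a' e1 e2 e3 e4
    rw [not_le] at e3 e4
    rw [abs_le] at *
    constructor <;> linarith [e1.1, e2.1])
  have hsum : ∑ q ∈ Icc 1 (QL κ x), ∑ a ∈ T q, |err y q (a : ZMod q)| =
      ∑ q ∈ Icc 1 (QL κ x), ∑ a ∈ (T q).filter (fun a => 0 ≤ a), |err y q (a : ZMod q)| +
      ∑ q ∈ Icc 1 (QL κ x), ∑ a ∈ (T q).filter (fun a => ¬ 0 ≤ a), |err y q (a : ZMod q)| := by
    rw [← sum_add_distrib]
    exact sum_congr rfl fun q _ => (sum_filter_add_sum_filter_not _ _ _).symm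
  rw [hsum]
  have g3 : 0 ≤ Real.sqrt M * x * L ^ 4 := by positivity
  have g5 : (M : ℝ) * x / L ^ (c + 1) ≤ M * x / L ^ c / 2 := by
    have e1 : (M : ℝ) * x / L ^ (c + 1) = M * x / L ^ c * (1 / L) := by
      rw [pow_succ]
      field_simp
    have e2 : 1 / L ≤ 1 / 2 := one_div_le_one_div_of_le (by norm_num) (by linarith)
    have e3 : 0 ≤ (M : ℝ) * x / L ^ c := by positivity
    rw [e1]
    calc (M : ℝ) * x / L ^ c * (1 / L) ≤ M * x / L ^ c * (1 / 2) :=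
          mul_le_mul_of_nonneg_left e2 e3
      _ = M * x / L ^ c / 2 := by ring
  linarith

end Pool.Agent.H35.KL
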