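import Pool.Agent.H35.KL.Sp
import Pool.Agent.H35.KL.Ca

/-!
# The bilinear form with Kloosterman fractions, `ℓ²` form

Follow `lemmaK` of KF (Pool/Agent/H80/KF/KNum.lean, end of the file); `knum_W`, `knum_final`,
`knum_large` are private there and have to be copied (`oo_bound`, `pp_card_ge`, `pp_half` are public).
* `w30`: copy of the proof of `pp_half` (PPc.lean): for `N` large, `P ≥ N^{1/25}` every `m ∈ II N` has
  at most 30 prime divisors in `PP P` (in that proof `n ≤ 3N`, `P^31 > 3N`).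
* Let `A2 = n2 (II N) α`, `B2 = n2 (II N) β`.  If `A2 = 0` then `α = 0` on `II N` and the sum is `0`.
  Otherwise put `s = 2N/A2`, `W = ∑_n ‖T_n‖²`, `U = ‖UU‖`.  By `split2`:
  `s W / 100 ≤ 12N/c² (4 N² c + s U/100)` (`c = #PP`), and `(s U/100)² ≤ (s U)² ≤
  (2N)² (2 ((2N)² c²) + O)` by `cau2`.  So `knum_W` and `knum_final` apply to `s W/100` and `s U/100`:
  `s W/100 ≤ (2400288 + 2400000000 √C) N^{71/24 + 3/10000}`.
* Cauchy in `n`: `‖S‖² ≤ B2 · W`.  So `‖S‖² ≤ A2 B2 · 50 (2400288 + 2400000000 √C) N^{47/24 + 3/10000}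
  ≤ A2 B2 N^{2 (1 - 1/50)}` for large `N` (`knum_large (49/25 - 47/24 - 3/10000)`).
-/

set_option autoImplicit false

namespace Pool.Agent.H35.KL

open Finset
open Pool.Agent.H80.KF

private theorem Kn_W {N P : ℕ} (hN : 1 ≤ N) (hP : 1 ≤ P) (hPN : P ≤ N) {c Λ U O C W e0 : ℝ}
    (hc : (P : ℝ) / Λ ≤ c) (hΛ : 1 ≤ Λ) (hU : 0 ≤ U) (hC : 0 ≤ C)
    (hUO : U ^ 2 ≤ (2 * N) ^ 2 * (2 * ((2 * N) ^ 2 * c ^ 2) + O))
    (hO : O ≤ C * (P : ℝ) ^ 8 * (N : ℝ) ^ (7 / 4 + e0))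
    (hW : W ≤ 12 * N / c ^ 2 * (c * (2 * N) ^ 2 + 2 * (2 * N) * c ^ 2 * (2 * N / P + 1) + U)) :
    W ≤ 120 * (N : ℝ) ^ 3 * Λ / P + 144 * (N : ℝ) ^ 3 / P +
      24 * Real.sqrt C * (N : ℝ) ^ (23 / 8 + e0 / 2) * (P : ℝ) ^ 2 * Λ ^ 2 := by
  have hN1 : (1 : ℝ) ≤ N := by exact_mod_cast hN
  have hN0 : (0 : ℝ) < N := by linarith
  have hP1 : (1 : ℝ) ≤ P := by exact_mod_cast hP
  have hP0 : (0 : ℝ) < P := by linarith
  have hΛ0 : 0 < Λ := by linarith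
  have hc0 : 0 < c := lt_of_lt_of_le (by positivity) hc
  have hic : 1 / c ≤ Λ / P := by
    rw [div_le_div_iff₀ hc0 hP0]
    rw [div_le_iff₀ hΛ0] at hc
    linarith
  obtain ⟨Q, hQ⟩ : ∃ Q : ℝ, Q = Real.sqrt C * (P : ℝ) ^ 4 * (N : ℝ) ^ (7 / 8 + e0 / 2) := ⟨_, rfl⟩
  have hQ0 : 0 ≤ Q := by rw [hQ]; positivity
  have hOQ : O ≤ Q ^ 2 := by
    refine hO.trans (le_of_eq ?_)
    rw [hQ, mul_pow, mul_pow, Real.sq_sqrt hC, ← pow_mul, ← Real.rpow_natCast ((N : ℝ) ^ _) 2,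
      ← Real.rpow_mul hN0.le]
    congr 2
    push_cast
    ring
  have hUle : U ≤ 6 * (N : ℝ) ^ 2 * c + 2 * N * Q := by
    apply (pow_le_pow_iff_left₀ hU (by positivity) two_ne_zero).1
    refine hUO.trans ?_
    have h1 : (2 * (N : ℝ)) ^ 2 * (2 * ((2 * N) ^ 2 * c ^ 2) + O) ≤
        (2 * (N : ℝ)) ^ 2 * (2 * ((2 * N) ^ 2 * c ^ 2) + Q ^ 2) :=
      mul_le_mul_of_nonneg_left (by linarith) (by positivity)
    refine h1.trans ?_
    have h2 : (6 * (N : ℝ) ^ 2 * c + 2 * N * Q) ^ 2 =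
        (2 * (N : ℝ)) ^ 2 * (2 * ((2 * N) ^ 2 * c ^ 2) + Q ^ 2) +
          (4 * (N : ℝ) ^ 4 * c ^ 2 + 24 * (N : ℝ) ^ 3 * c * Q) := by ring
    rw [h2]
    have h3 : 0 ≤ 4 * (N : ℝ) ^ 4 * c ^ 2 + 24 * (N : ℝ) ^ 3 * c * Q := by positivity
    linarith
  have hstep : W ≤ 12 * N / c ^ 2 * (c * (2 * N) ^ 2 + 2 * (2 * N) * c ^ 2 * (2 * N / P + 1) +
      (6 * (N : ℝ) ^ 2 * c + 2 * N * Q)) := by
    refine hW.trans ?_
    apply mul_le_mul_of_nonneg_left _ (by positivity)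
    linarith
  have heq : 12 * (N : ℝ) / c ^ 2 * (c * (2 * N) ^ 2 + 2 * (2 * N) * c ^ 2 * (2 * N / P + 1) +
      (6 * (N : ℝ) ^ 2 * c + 2 * N * Q)) =
      120 * (N : ℝ) ^ 3 * (1 / c) + 24 * (N : ℝ) ^ 2 * Q * (1 / c) ^ 2 +
        96 * (N : ℝ) ^ 3 / P + 48 * (N : ℝ) ^ 2 := by
    field_simp
    ring
  rw [heq] at hstep
  have h1c : 0 ≤ 1 / c := by positivity
  have t1 : 120 * (N : ℝ) ^ 3 * (1 / c) ≤ 120 * (N : ℝ) ^ 3 * (Λ / P) :=
    mul_le_mul_of_nonneg_left hic (by positivity)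
  have t2 : 24 * (N : ℝ) ^ 2 * Q * (1 / c) ^ 2 ≤ 24 * (N : ℝ) ^ 2 * Q * (Λ / P) ^ 2 :=
    mul_le_mul_of_nonneg_left (pow_le_pow_left₀ h1c hic 2) (by positivity)
  have t3 : (N : ℝ) ^ 2 ≤ (N : ℝ) ^ 3 / P := by
    rw [le_div_iff₀ hP0]
    have : (P : ℝ) ≤ N := by exact_mod_cast hPN
    have h5 : (N : ℝ) ^ 2 * P ≤ (N : ℝ) ^ 2 * N := mul_le_mul_of_nonneg_left this (by positivity)
    calc (N : ℝ) ^ 2 * P ≤ (N : ℝ) ^ 2 * N := h5
      _ = (N : ℝ) ^ 3 := by ring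
  have t4 : 24 * (N : ℝ) ^ 2 * Q * (Λ / P) ^ 2 =
      24 * Real.sqrt C * (N : ℝ) ^ (23 / 8 + e0 / 2) * (P : ℝ) ^ 2 * Λ ^ 2 := by
    have e : (N : ℝ) ^ (23 / 8 + e0 / 2) = (N : ℝ) ^ 2 * (N : ℝ) ^ (7 / 8 + e0 / 2) := by
      rw [← Real.rpow_natCast (N : ℝ) 2, ← Real.rpow_add hN0]
      congr 1
      push_cast
      ring
    rw [hQ, e]
    field_simp
  calc W ≤ _ := hstep
    _ ≤ 120 * (N : ℝ) ^ 3 * (Λ / P) + 24 * (N : ℝ) ^ 2 * Q * (Λ / P) ^ 2 +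
        96 * (N : ℝ) ^ 3 / P + 48 * ((N : ℝ) ^ 3 / P) := by linarith
    _ = _ := by rw [t4]; ring

private theorem Kn_final {N P : ℕ} (hN : 1 ≤ N) {C W Λ : ℝ} (hC : 0 ≤ C)
    (hΛ0 : 0 ≤ Λ) (hΛ : Λ ≤ 10000 * (N : ℝ) ^ ((1 : ℝ) / 10000))
    (hP1 : (P : ℝ) ≤ (N : ℝ) ^ ((1 : ℝ) / 24)) (hP2 : (N : ℝ) ^ ((1 : ℝ) / 24) ≤ 2 * P)
    (hW : W ≤ 120 * (N : ℝ) ^ 3 * Λ / P + 144 * (N : ℝ) ^ 3 / P +
      24 * Real.sqrt C * (N : ℝ) ^ ((23 : ℝ) / 8 + (1 / 5000) / 2) * (P : ℝ) ^ 2 * Λ ^ 2) :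
    W ≤ (2400288 + 2400000000 * Real.sqrt C) * (N : ℝ) ^ ((71 : ℝ) / 24 + 3 / 10000) := by
  have hN1 : (1 : ℝ) ≤ N := by exact_mod_cast hN
  have hN0 : (0 : ℝ) < N := by linarith
  have hx0 : 0 < (N : ℝ) ^ ((1 : ℝ) / 24) := Real.rpow_pos_of_pos hN0 _
  have hP0 : (0 : ℝ) < P := by linarith
  obtain ⟨y, hy⟩ : ∃ y : ℝ, y = (N : ℝ) ^ ((1 : ℝ) / 10000) := ⟨_, rfl⟩
  have hy1 : 1 ≤ y := by rw [hy]; exact Real.one_le_rpow hN1 (by norm_num)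
  rw [← hy] at hΛ
  have hinv : (N : ℝ) ^ 3 / P ≤ 2 * (N : ℝ) ^ ((71 : ℝ) / 24) := by
    rw [div_le_iff₀ hP0]
    have e : (N : ℝ) ^ 3 = (N : ℝ) ^ ((71 : ℝ) / 24) * (N : ℝ) ^ ((1 : ℝ) / 24) := by
      rw [← Real.rpow_natCast (N : ℝ) 3, ← Real.rpow_add hN0]
      congr 1
      push_cast
      norm_num
    rw [e]
    calc (N : ℝ) ^ ((71 : ℝ) / 24) * (N : ℝ) ^ ((1 : ℝ) / 24) ≤
          (N : ℝ) ^ ((71 : ℝ) / 24) * (2 * P) := mul_le_mul_of_nonneg_left hP2 (by positivity)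
      _ = _ := by ring
  have hE : (N : ℝ) ^ ((71 : ℝ) / 24 + 3 / 10000) = (N : ℝ) ^ ((71 : ℝ) / 24) * y ^ 3 := by
    rw [hy, ← Real.rpow_natCast ((N : ℝ) ^ _) 3, ← Real.rpow_mul hN0.le, ← Real.rpow_add hN0]
    congr 1
    push_cast
    norm_num
  have hPsq : (N : ℝ) ^ ((23 : ℝ) / 8 + (1 / 5000) / 2) * (P : ℝ) ^ 2 ≤
      (N : ℝ) ^ ((71 : ℝ) / 24) * y := by
    have e : (N : ℝ) ^ ((71 : ℝ) / 24) * y =
        (N : ℝ) ^ ((23 : ℝ) / 8 + (1 / 5000) / 2) * ((N : ℝ) ^ ((1 : ℝ) / 24)) ^ 2 := by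
      rw [hy, ← Real.rpow_natCast ((N : ℝ) ^ _) 2, ← Real.rpow_mul hN0.le, ← Real.rpow_add hN0,
        ← Real.rpow_add hN0]
      congr 1
      push_cast
      norm_num
    rw [e]
    exact mul_le_mul_of_nonneg_left (pow_le_pow_left₀ hP0.le hP1 2) (by positivity)
  rw [hE]
  obtain ⟨G, hG⟩ : ∃ G : ℝ, G = (N : ℝ) ^ ((71 : ℝ) / 24) := ⟨_, rfl⟩
  have hG0 : 0 < G := by rw [hG]; positivity
  rw [← hG] at hinv hPsq ⊢
  have hs0 : 0 ≤ Real.sqrt C := Real.sqrt_nonneg C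
  have hy2 : y ≤ y ^ 3 := by
    have : y * 1 ≤ y * (y * y) := mul_le_mul_of_nonneg_left (by nlinarith) (by linarith)
    calc y = y * 1 := by ring
      _ ≤ y * (y * y) := this
      _ = y ^ 3 := by ring
  have hy3 : 1 ≤ y ^ 3 := one_le_pow₀ hy1
  have t1 : 120 * (N : ℝ) ^ 3 * Λ / P ≤ 2400000 * (G * y ^ 3) := by
    calc 120 * (N : ℝ) ^ 3 * Λ / P = 120 * Λ * ((N : ℝ) ^ 3 / P) := by ring
      _ ≤ 120 * Λ * (2 * G) := mul_le_mul_of_nonneg_left hinv (by positivity)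
      _ ≤ 120 * (10000 * y) * (2 * G) := by
          apply mul_le_mul_of_nonneg_right _ (by positivity)
          exact mul_le_mul_of_nonneg_left hΛ (by norm_num)
      _ = 2400000 * G * y := by ring
      _ ≤ 2400000 * G * y ^ 3 := mul_le_mul_of_nonneg_left hy2 (by positivity)
      _ = _ := by ring
  have t2 : 144 * (N : ℝ) ^ 3 / P ≤ 288 * (G * y ^ 3) := by
    calc 144 * (N : ℝ) ^ 3 / P = 144 * ((N : ℝ) ^ 3 / P) := by ring
      _ ≤ 144 * (2 * G) := mul_le_mul_of_nonneg_left hinv (by norm_num)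
      _ = 288 * G * 1 := by ring
      _ ≤ 288 * G * y ^ 3 := mul_le_mul_of_nonneg_left hy3 (by positivity)
      _ = _ := by ring
  have t3 : 24 * Real.sqrt C * (N : ℝ) ^ ((23 : ℝ) / 8 + (1 / 5000) / 2) * (P : ℝ) ^ 2 * Λ ^ 2 ≤
      2400000000 * Real.sqrt C * (G * y ^ 3) := by
    calc 24 * Real.sqrt C * (N : ℝ) ^ ((23 : ℝ) / 8 + (1 / 5000) / 2) * (P : ℝ) ^ 2 * Λ ^ 2
        = 24 * Real.sqrt C * Λ ^ 2 *
          ((N : ℝ) ^ ((23 : ℝ) / 8 + (1 / 5000) / 2) * (P : ℝ) ^ 2) := by ring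
      _ ≤ 24 * Real.sqrt C * Λ ^ 2 * (G * y) := mul_le_mul_of_nonneg_left hPsq (by positivity)
      _ ≤ 24 * Real.sqrt C * (10000 * y) ^ 2 * (G * y) := by
          apply mul_le_mul_of_nonneg_right _ (by positivity)
          exact mul_le_mul_of_nonneg_left (pow_le_pow_left₀ hΛ0 hΛ 2) (by positivity)
      _ = _ := by ring
  calc W ≤ _ := hW
    _ ≤ 2400000 * (G * y ^ 3) + 288 * (G * y ^ 3) + 2400000000 * Real.sqrt C * (G * y ^ 3) := by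
        linarith
    _ = _ := by ring

private theorem Kn_large (κ B : ℝ) (hκ : 0 < κ) :
    ∃ N0 : ℕ, ∀ N : ℕ, N0 ≤ N → B ≤ (N : ℝ) ^ κ := by
  have h := ((tendsto_rpow_atTop hκ).comp
    (tendsto_natCast_atTop_atTop (R := ℝ))).eventually_ge_atTop B
  obtain ⟨N0, h0⟩ := Filter.eventually_atTop.1 h
  exact ⟨N0, fun N hN => h0 N hN⟩

private theorem Kn_cauchy {N : ℕ} (β T : ℕ → ℂ) :
    ‖∑ n ∈ II N, β n * T n‖ ^ 2 ≤ n2 (II N) β * ∑ n ∈ II N, ‖T n‖ ^ 2 := by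
  have h1 : ‖∑ n ∈ II N, β n * T n‖ ≤ ∑ n ∈ II N, ‖β n‖ * ‖T n‖ := by
    refine (norm_sum_le _ _).trans (le_of_eq (Finset.sum_congr rfl fun n _ => ?_))
    rw [norm_mul]
  refine (pow_le_pow_left₀ (norm_nonneg _) h1 2).trans ?_
  exact Finset.sum_mul_sq_le_sq_mul_sq _ _ _

theorem w30 : ∃ N0 : ℕ, ∀ N P : ℕ, N0 ≤ N → (N : ℝ) ^ ((1 : ℝ) / 25) ≤ P → ∀ n ∈ II N,
    ((PP P).filter (fun p => p ∣ n)).card ≤ 30 := by
  refine ⟨243, fun N P hN hNP n hn => ?_⟩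
  have hN1 : 243 ≤ N := hN
  have hNpos : (0 : ℝ) < N := by exact_mod_cast (by omega : 0 < N)
  have hPpos : (0 : ℝ) < P := lt_of_lt_of_le (Real.rpow_pos_of_pos hNpos _) hNP
  have hn' : 0 < n ∧ n ≤ 3 * N := by
    unfold II at hn
    rw [Finset.mem_Ioc] at hn
    constructor
    · omega
    · omega
  by_contra hcon
  push Not at hcon
  have hprod : ∏ p ∈ (PP P).filter (fun p => p ∣ n), p ∣ n := by
    apply Finset.prod_primes_dvd
    · intro p hp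
      simp only [PP, Finset.mem_filter] at hp
      exact hp.1.2.prime
    · intro p hp
      simp only [Finset.mem_filter] at hp
      exact hp.2
  have hle := Nat.le_of_dvd hn'.1 hprod
  have hpow : P ^ ((PP P).filter (fun p => p ∣ n)).card ≤ ∏ p ∈ (PP P).filter (fun p => p ∣ n), p := by
    apply Finset.pow_card_le_prod
    intro p hp
    simp only [PP, Finset.mem_filter, Finset.mem_Ioc] at hp
    omega
  have hP1 : 1 ≤ P := by
    have : (0 : ℝ) < P := hPpos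
    exact_mod_cast this
  have h31 : P ^ 31 ≤ P ^ ((PP P).filter (fun p => p ∣ n)).card :=
    Nat.pow_le_pow_right hP1 (by omega)
  have hfin : (P : ℝ) ^ (31 : ℕ) ≤ 3 * N := by
    have : P ^ 31 ≤ 3 * N := le_trans h31 (le_trans hpow (le_trans hle hn'.2))
    exact_mod_cast this
  have h5 : ((N : ℝ) ^ ((1 : ℝ) / 25)) ^ (31 : ℕ) ≤ (P : ℝ) ^ (31 : ℕ) :=
    pow_le_pow_left₀ (by positivity) hNP 31
  have h6 : ((N : ℝ) ^ ((1 : ℝ) / 25)) ^ (31 : ℕ) = N * (N : ℝ) ^ ((6 : ℝ) / 25) := by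
    rw [← Real.rpow_natCast, ← Real.rpow_mul hNpos.le]
    nth_rewrite 2 [← Real.rpow_one (N : ℝ)]
    rw [← Real.rpow_add hNpos]
    norm_num
  have h7 : (3 : ℝ) < (N : ℝ) ^ ((6 : ℝ) / 25) := by
    have h8 : (243 : ℝ) ^ ((6 : ℝ) / 25) ≤ (N : ℝ) ^ ((6 : ℝ) / 25) :=
      Real.rpow_le_rpow (by norm_num) (by exact_mod_cast hN1) (by norm_num)
    have h9 : (243 : ℝ) ^ ((6 : ℝ) / 25) = 3 ^ ((6 : ℝ) / 5) := by
      rw [show (243 : ℝ) = 3 ^ (5 : ℝ) by norm_num, ← Real.rpow_mul (by norm_num)]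
      norm_num
    have h10 : (3 : ℝ) ^ (1 : ℝ) < 3 ^ ((6 : ℝ) / 5) :=
      Real.rpow_lt_rpow_of_exponent_lt (by norm_num) (by norm_num)
    rw [Real.rpow_one] at h10
    linarith
  nlinarith

/-- the amplified sum of the normalised coefficients -/
private theorem Kn_core {N P : ℕ} (hN : 1 ≤ N) (hP : 1 ≤ P) (hPN : P ≤ N) {c Λ U O C W A : ℝ}
    (hA : 0 < A) (hc : (P : ℝ) / Λ ≤ c) (hΛ : 1 ≤ Λ) (hU : 0 ≤ U) (hC : 0 ≤ C)
    (hUO : U ^ 2 ≤ A ^ 2 * (2 * ((2 * N) ^ 2 * c ^ 2) + O))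
    (hO : O ≤ C * (P : ℝ) ^ 8 * (N : ℝ) ^ (7 / 4 + (1 / 5000 : ℝ)))
    (hW : W ≤ 12 * N / c ^ 2 * (200 * N * c * A + U))
    (hΛ2 : Λ ≤ 10000 * (N : ℝ) ^ ((1 : ℝ) / 10000))
    (hP1 : (P : ℝ) ≤ (N : ℝ) ^ ((1 : ℝ) / 24)) (hP2 : (N : ℝ) ^ ((1 : ℝ) / 24) ≤ 2 * P) :
    W ≤ A * (50 * (2400288 + 2400000000 * Real.sqrt C) *
      (N : ℝ) ^ ((47 : ℝ) / 24 + 3 / 10000)) := by
  have hN1 : (1 : ℝ) ≤ N := by exact_mod_cast hN
  have hN0 : (0 : ℝ) < N := by linarith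
  have hP1r : (1 : ℝ) ≤ P := by exact_mod_cast hP
  have hP0 : (0 : ℝ) < P := by linarith
  have hΛ0 : 0 < Λ := by linarith
  have hc0 : 0 < c := lt_of_lt_of_le (by positivity) hc
  obtain ⟨s, hs⟩ : ∃ s : ℝ, s = (N : ℝ) / (50 * A) := ⟨_, rfl⟩
  have hs0 : 0 < s := by rw [hs]; positivity
  have hsA : s * A = N / 50 := by
    rw [hs]
    field_simp
  have hX : 0 ≤ 2 * ((2 * (N : ℝ)) ^ 2 * c ^ 2) + O := by
    by_contra hcon
    push Not at hcon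
    have h1 : A ^ 2 * (2 * ((2 * (N : ℝ)) ^ 2 * c ^ 2) + O) < 0 :=
      mul_neg_of_pos_of_neg (by positivity) hcon
    have h2 : 0 ≤ U ^ 2 := by positivity
    linarith
  have h1 : (s * U) ^ 2 ≤ (2 * N) ^ 2 * (2 * ((2 * N) ^ 2 * c ^ 2) + O) := by
    calc (s * U) ^ 2 = s ^ 2 * U ^ 2 := by ring
      _ ≤ s ^ 2 * (A ^ 2 * (2 * ((2 * N) ^ 2 * c ^ 2) + O)) :=
          mul_le_mul_of_nonneg_left hUO (by positivity)
      _ = (s * A) ^ 2 * (2 * ((2 * N) ^ 2 * c ^ 2) + O) := by ring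
      _ ≤ (2 * N) ^ 2 * (2 * ((2 * N) ^ 2 * c ^ 2) + O) := by
          apply mul_le_mul_of_nonneg_right _ hX
          rw [hsA]
          apply pow_le_pow_left₀ (by positivity)
          linarith
  have h2 : s * W ≤ 12 * N / c ^ 2 *
      (c * (2 * N) ^ 2 + 2 * (2 * N) * c ^ 2 * (2 * N / P + 1) + s * U) := by
    calc s * W ≤ s * (12 * N / c ^ 2 * (200 * N * c * A + U)) :=
          mul_le_mul_of_nonneg_left hW hs0.le
      _ = 12 * N / c ^ 2 * (200 * N * c * (s * A) + s * U) := by ring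
      _ = 12 * N / c ^ 2 * (c * (2 * N) ^ 2 + s * U) := by
          rw [hsA]
          ring
      _ ≤ _ := by
          apply mul_le_mul_of_nonneg_left _ (by positivity)
          have h3 : 0 ≤ 2 * (2 * (N : ℝ)) * c ^ 2 * (2 * N / P + 1) := by positivity
          linarith
  have h3 := Kn_W (e0 := 1 / 5000) hN hP hPN hc hΛ (mul_nonneg hs0.le hU) hC h1 hO h2
  have h4 := Kn_final hN hC hΛ0.le hΛ2 hP1 hP2 h3
  have h5 : (N : ℝ) ^ ((71 : ℝ) / 24 + 3 / 10000) = N * (N : ℝ) ^ ((47 : ℝ) / 24 + 3 / 10000) := by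
    nth_rewrite 2 [← Real.rpow_one (N : ℝ)]
    rw [← Real.rpow_add hN0]
    congr 1
    norm_num
  rw [h5] at h4
  have h6 : s * W ≤ s * (A * (50 * (2400288 + 2400000000 * Real.sqrt C) *
      (N : ℝ) ^ ((47 : ℝ) / 24 + 3 / 10000))) := by
    refine h4.trans (le_of_eq ?_)
    have h7 : s * (A * (50 * (2400288 + 2400000000 * Real.sqrt C) *
      (N : ℝ) ^ ((47 : ℝ) / 24 + 3 / 10000))) = (s * A) *
      (50 * (2400288 + 2400000000 * Real.sqrt C) * (N : ℝ) ^ ((47 : ℝ) / 24 + 3 / 10000)) := by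
      ring
    rw [h7, hsA]
    ring
  exact le_of_mul_le_mul_left h6 hs0

theorem lemmaK2 : ∃ N0 : ℕ, ∀ N : ℕ, N0 ≤ N → ∀ η : ℤ, η ≠ 0 → |η| ≤ 4 * (N : ℤ) ^ 2 →
    ∀ α β : ℕ → ℂ, ∀ F : ℝ → ℂ, Wt N F →
    ‖∑ n ∈ II N, ∑ m ∈ (II N).filter (fun m => Nat.Coprime m n),
        α m * β n * F ((m : ℝ) * n) * kf n η m‖ ≤
      (N : ℝ) ^ ((1 : ℝ) - 1 / 50) * (Real.sqrt (n2 (II N) α) * Real.sqrt (n2 (II N) β)) := by
  obtain ⟨C, hC, hOO⟩ := oo_bound (1 / 5000) (by norm_num)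
  obtain ⟨P0, hP0⟩ := pp_card_ge
  obtain ⟨Nh, hNh⟩ := pp_half
  obtain ⟨Nw, hNw⟩ := w30
  obtain ⟨N1, hN1⟩ := Kn_large (1 / 24) (2 * max (P0 : ℝ) 2) (by norm_num)
  obtain ⟨N2, hN2⟩ := Kn_large (1 / 600) 2 (by norm_num)
  obtain ⟨N3, hN3⟩ := Kn_large (49 / 25 - 47 / 24 - 3 / 10000)
    (50 * (2400288 + 2400000000 * Real.sqrt C)) (by norm_num)
  refine ⟨max Nw (max (max (max Nh 3) N1) (max N2 N3)), ?_⟩
  intro N hN' η hη0 hη α β F hF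
  have l0 : Nw ≤ N := (le_max_left _ _).trans hN'
  have hN : max (max (max Nh 3) N1) (max N2 N3) ≤ N := (le_max_right _ _).trans hN'
  have l1 : Nh ≤ N := (le_max_left _ _).trans ((le_max_left _ _).trans ((le_max_left _ _).trans hN))
  have l2 : 3 ≤ N := (le_max_right _ _).trans ((le_max_left _ _).trans ((le_max_left _ _).trans hN))
  have l3 : N1 ≤ N := (le_max_right _ _).trans ((le_max_left _ _).trans hN)
  have l4 : N2 ≤ N := (le_max_left _ _).trans ((le_max_right _ _).trans hN)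
  have l5 : N3 ≤ N := (le_max_right _ _).trans ((le_max_right _ _).trans hN)
  have g1 := hN1 N l3
  have g2 := hN2 N l4
  have g3 := hN3 N l5
  have hNge : 1 ≤ N := by omega
  have hNr : (1 : ℝ) ≤ N := by exact_mod_cast hNge
  have hN0 : (0 : ℝ) < N := by linarith
  obtain ⟨P, hPdef⟩ : ∃ P : ℕ, P = ⌊(N : ℝ) ^ ((1 : ℝ) / 24)⌋₊ := ⟨_, rfl⟩
  have hx0 : 0 ≤ (N : ℝ) ^ ((1 : ℝ) / 24) := by positivity
  have hPle : (P : ℝ) ≤ (N : ℝ) ^ ((1 : ℝ) / 24) := by rw [hPdef]; exact Nat.floor_le hx0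
  have hPlt : (N : ℝ) ^ ((1 : ℝ) / 24) < P + 1 := by rw [hPdef]; exact Nat.lt_floor_add_one _
  have hx4 : 4 ≤ (N : ℝ) ^ ((1 : ℝ) / 24) := by
    have := le_max_right (P0 : ℝ) 2
    linarith
  have hP1r : (1 : ℝ) ≤ P := by linarith
  have hP1 : 1 ≤ P := by exact_mod_cast hP1r
  have hPge : (N : ℝ) ^ ((1 : ℝ) / 24) ≤ 2 * P := by linarith
  have hPN : P ≤ N := by
    have h1 : (N : ℝ) ^ ((1 : ℝ) / 24) ≤ (N : ℝ) ^ (1 : ℝ) :=
      Real.rpow_le_rpow_of_exponent_le hNr (by norm_num)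
    rw [Real.rpow_one] at h1
    exact_mod_cast hPle.trans h1
  have hPP0 : P0 ≤ P := by
    have := le_max_left (P0 : ℝ) 2
    have h1 : (P0 : ℝ) ≤ P := by linarith
    exact_mod_cast h1
  have hP2 : (2 : ℝ) ≤ P := by
    have := le_max_right (P0 : ℝ) 2
    linarith
  have hP25 : (N : ℝ) ^ ((1 : ℝ) / 25) ≤ P := by
    have e : (N : ℝ) ^ ((1 : ℝ) / 24) = (N : ℝ) ^ ((1 : ℝ) / 25) * (N : ℝ) ^ ((1 : ℝ) / 600) := by
      rw [← Real.rpow_add hN0]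
      norm_num
    have h1 : (N : ℝ) ^ ((1 : ℝ) / 25) * 2 ≤ (N : ℝ) ^ ((1 : ℝ) / 25) * (N : ℝ) ^ ((1 : ℝ) / 600) :=
      mul_le_mul_of_nonneg_left g2 (by positivity)
    rw [← e] at h1
    linarith
  have hhalf := hNh N P l1 hP25
  have hw := hNw N P l0 hP25
  have hlogP : 0 < Real.log P := Real.log_pos (by linarith)
  have hlogPN : Real.log P ≤ Real.log N :=
    Real.log_le_log (by linarith) (by exact_mod_cast hPN)
  have hΛ1 : 1 ≤ Real.log N := by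
    rw [Real.le_log_iff_exp_le hN0]
    have : Real.exp 1 ≤ 3 := Real.exp_one_lt_three.le
    have h3 : (3 : ℝ) ≤ N := by exact_mod_cast l2
    linarith
  have hc : (P : ℝ) / Real.log N ≤ ((PP P).card : ℝ) := by
    refine le_trans ?_ (hP0 P hPP0)
    exact div_le_div_of_nonneg_left (by linarith) hlogP hlogPN
  have hcpos : 0 < (PP P).card := by
    have h1 : (0 : ℝ) < ((PP P).card : ℝ) := lt_of_lt_of_le (by positivity) hc
    exact_mod_cast h1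
  have hΛle : Real.log N ≤ 10000 * (N : ℝ) ^ ((1 : ℝ) / 10000) := by
    have := Real.log_le_rpow_div hN0.le (by norm_num : (0 : ℝ) < 1 / 10000)
    rw [div_eq_mul_inv] at this
    norm_num at this ⊢
    linarith
  have hS : ∑ n ∈ II N, ∑ m ∈ (II N).filter (fun m => Nat.Coprime m n),
        α m * β n * F ((m : ℝ) * n) * kf n η m =
      ∑ n ∈ II N, β n * ∑ m ∈ (II N).filter (fun m => Nat.Coprime m n),
        α m * F ((m : ℝ) * n) * kf n η m := by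
    apply Finset.sum_congr rfl
    intro n _
    rw [Finset.mul_sum]
    apply Finset.sum_congr rfl
    intro m _
    ring
  have hB0 : 0 ≤ n2 (II N) β := n2_nonneg _ _
  rcases (n2_nonneg (II N) α).eq_or_lt with hA | hA
  · -- all coefficients vanish
    have hz : ∀ m ∈ II N, α m = 0 := by
      intro m hm
      have h1 : ∑ m ∈ II N, ‖α m‖ ^ 2 = 0 := hA.symm
      have h2 := (Finset.sum_eq_zero_iff_of_nonneg fun m _ => by positivity).1 h1 m hm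
      have h3 : ‖α m‖ = 0 := by
        simpa using h2
      exact norm_eq_zero.1 h3
    have h0 : ∑ n ∈ II N, ∑ m ∈ (II N).filter (fun m => Nat.Coprime m n),
        α m * β n * F ((m : ℝ) * n) * kf n η m = 0 := by
      apply Finset.sum_eq_zero
      intro n _
      apply Finset.sum_eq_zero
      intro m hm
      rw [hz m (Finset.mem_filter.1 hm).1]
      ring
    rw [h0, norm_zero]
    positivity
  · have hsplit := split2 N P hNge hP1 hPN η α F hF.1 hcpos hw hhalf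
    have hcau := cau2 N P hNge η α F hF.1
    have hO := hOO N P hNge hP1 hPN η hη0 hη F hF
    have hfin := Kn_core hNge hP1 hPN hA hc hΛ1 (norm_nonneg (UU F η N P α)) hC.le hcau hO hsplit
      hΛle hPle hPge
    rw [hS]
    apply (pow_le_pow_iff_left₀ (norm_nonneg _) (by positivity) two_ne_zero).1
    refine (Kn_cauchy β _).trans ?_
    have e1 : ((N : ℝ) ^ ((1 : ℝ) - 1 / 50) *
        (Real.sqrt (n2 (II N) α) * Real.sqrt (n2 (II N) β))) ^ 2 =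
        n2 (II N) β * (n2 (II N) α * ((N : ℝ) ^ ((47 : ℝ) / 24 + 3 / 10000) *
          (N : ℝ) ^ ((49 : ℝ) / 25 - 47 / 24 - 3 / 10000))) := by
      rw [mul_pow, mul_pow, Real.sq_sqrt hA.le, Real.sq_sqrt hB0,
        ← Real.rpow_natCast ((N : ℝ) ^ _) 2, ← Real.rpow_mul hN0.le, ← Real.rpow_add hN0]
      have e2 : ((1 : ℝ) - 1 / 50) * ((2 : ℕ) : ℝ) =
          (47 : ℝ) / 24 + 3 / 10000 + ((49 : ℝ) / 25 - 47 / 24 - 3 / 10000) := by
        push_cast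
        norm_num
      rw [e2]
      ring
    rw [e1]
    apply mul_le_mul_of_nonneg_left _ hB0
    refine hfin.trans ?_
    apply mul_le_mul_of_nonneg_left _ hA.le
    rw [mul_comm (50 * (2400288 + 2400000000 * Real.sqrt C))]
    exact mul_le_mul_of_nonneg_left g3 (by positivity)

end Pool.Agent.H35.KL
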