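import Pool.Agent.H35.KL.Defs

/-!
# Counting the degenerate terms, first weight

Fixed `m1`.  Write `m2 = p1 m'`; `p1 (m1 - p2 m') ≡ 0 (mod n)`, `p1 ∤ n`, so `n ∣ m1 - p2 m'`.
If `m1 = p2 m'`: `p2 ∣ m1` (at most 30 primes), `p1`, `n` free, `m2 = p1 (m1/p2)`: at most `60 N #PP`.
Otherwise `|m1 - p2 m'| ≤ 8N + 4 < 8 (N+1)` (`p2 m' ≤ 4P (2N+1)/p1`, `p1 > P`), so `n` is one of the
numbers `|m1 - p2 m'| / k`, `1 ≤ k ≤ 7`; the number of `(p1, p2, m2)` with `p1 ∣ m2` is at most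
`#PP² (2N/P + 1)`, `#PP ≤ 3P` (`pp_card_le`), `P ≤ N`: at most `7 #PP (3P) (3N/P) = 63 N #PP`.
-/

set_option autoImplicit false

namespace Pool.Agent.H35.KL

open Finset
open Pool.Agent.H80.KF

private theorem sc1_mem_II {N m : ℕ} : m ∈ II N ↔ N < m ∧ m ≤ 2 * N + 1 := by
  unfold II; exact mem_Ioc

private theorem sc1_card_II (N : ℕ) : (II N).card = N + 1 := by
  unfold II; rw [Nat.card_Ioc]; omega

private theorem sc1_card_mult (N P p : ℕ) (hN : 1 ≤ N) (hP : 1 ≤ P) (hp : P < p) :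
    (((II N).filter (fun m => p ∣ m)).card : ℝ) ≤ 2 * N / P + 1 := by
  have hp0 : 0 < p := by omega
  have h1 : ((II N).filter (fun m => p ∣ m)).card ≤ (Ioc (N / p) ((2 * N + 1) / p)).card := by
    apply card_le_card_of_injOn (fun m => m / p)
    · intro m hm
      rw [mem_coe, mem_filter, sc1_mem_II] at hm
      obtain ⟨⟨h2, h3⟩, k, rfl⟩ := hm
      rw [mem_coe, mem_Ioc]
      change N / p < p * k / p ∧ p * k / p ≤ (2 * N + 1) / p
      rw [Nat.mul_div_cancel_left _ hp0]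
      constructor
      · rw [Nat.div_lt_iff_lt_mul hp0, mul_comm]; exact h2
      · rw [Nat.le_div_iff_mul_le hp0, mul_comm]; exact h3
    · intro a ha b hb hab
      rw [mem_coe, mem_filter] at ha hb
      obtain ⟨k, rfl⟩ := ha.2
      obtain ⟨l, rfl⟩ := hb.2
      simp only [Nat.mul_div_cancel_left _ hp0] at hab
      rw [hab]
  rw [Nat.card_Ioc] at h1
  have h2 : (((2 * N + 1) / p - N / p : ℕ) : ℝ) ≤ ((N : ℝ) + 1) / p + 1 := by
    have h3 : (((2 * N + 1) / p : ℕ) : ℝ) ≤ ((2 * N + 1 : ℕ) : ℝ) / p := Nat.cast_div_le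
    have h4 : ((N : ℝ)) / p < ((N / p : ℕ) : ℝ) + 1 := by
      have := Nat.lt_floor_add_one ((N : ℝ) / p)
      rwa [Nat.floor_div_eq_div] at this
    rcases Nat.lt_or_ge ((2 * N + 1) / p) (N / p) with h5 | h5
    · rw [Nat.sub_eq_zero_of_le h5.le]
      simp only [Nat.cast_zero]
      positivity
    · rw [Nat.cast_sub h5]
      have h6 : ((2 * N + 1 : ℕ) : ℝ) / p = (N : ℝ) / p + ((N : ℝ) + 1) / p := by
        push_cast; ring
      rw [h6] at h3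
      linarith
  have hP0 : (0 : ℝ) < P := by exact_mod_cast hP
  have h3 : ((N : ℝ) + 1) / p ≤ 2 * N / P := by
    have hN1 : (1 : ℝ) ≤ N := by exact_mod_cast hN
    have hpP : (P : ℝ) ≤ p := by exact_mod_cast hp.le
    apply div_le_div₀ (by positivity) (by linarith) hP0 hpP
  have h4 : (((II N).filter (fun m => p ∣ m)).card : ℝ) ≤
      (((2 * N + 1) / p - N / p : ℕ) : ℝ) := by exact_mod_cast h1
  linarith

/-- the number of divisors in `II N` of a small number -/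
private theorem sc1_dvd_card {N D : ℕ} (hD : D ≠ 0) (hD8 : D < 8 * (N + 1)) :
    ((II N).filter (fun n => n ∣ D)).card ≤ 7 := by
  have h : ((II N).filter (fun n => n ∣ D)).card ≤ (Icc 1 7).card := by
    apply card_le_card_of_injOn (fun n => D / n)
    · intro n hn
      rw [mem_coe, mem_filter, sc1_mem_II] at hn
      obtain ⟨⟨h1, h2⟩, h3⟩ := hn
      rw [mem_coe, mem_Icc]
      have hn0 : 0 < n := by omega
      refine ⟨?_, ?_⟩
      · exact Nat.div_pos (Nat.le_of_dvd (Nat.pos_of_ne_zero hD) h3) hn0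
      · have h4 : D / n < 8 := by
          rw [Nat.div_lt_iff_lt_mul hn0]
          omega
        exact Nat.lt_succ_iff.mp h4
    · intro a ha b hb hab
      rw [mem_coe, mem_filter] at ha hb
      have h1 := Nat.mul_div_cancel' ha.2
      have h2 := Nat.mul_div_cancel' hb.2
      simp only at hab
      rw [hab] at h1
      have h3 : D / b ≠ 0 := by
        intro h0
        rw [h0, mul_zero] at h2
        exact hD h2.symm
      exact Nat.eq_of_mul_eq_mul_right (Nat.pos_of_ne_zero h3) (h1.trans h2.symm)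
  simpa using h

/-- the difference -/
private def dd (m1 p1 p2 m2 : ℕ) : ℕ := ((m1 : ℤ) - p2 * (m2 / p1 : ℕ)).natAbs

private theorem sc1_key {N P n p1 p2 m1 m2 : ℕ} (hp1 : p1 ∈ PP P)
    (hp2 : p2 ∈ PP P) (hm1 : m1 ∈ II N) (hm2 : m2 ∈ II N)
    (h : (¬ p1 ∣ n ∧ ¬ p2 ∣ n ∧ p1 * m1 ≡ p2 * m2 [MOD n]) ∧ p1 ∣ m2) :
    (p2 ∣ m1 ∧ p1 * m1 = p2 * m2) ∨
      (p1 ∣ m2 ∧ n ∣ dd m1 p1 p2 m2 ∧ dd m1 p1 p2 m2 ≠ 0 ∧ dd m1 p1 p2 m2 < 8 * (N + 1)) := by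
  obtain ⟨⟨h1, h2, h3⟩, k, rfl⟩ := h
  have hpp1 := (mem_filter.mp hp1).2
  obtain ⟨hP1, hP1'⟩ := mem_Ioc.mp (mem_filter.mp hp1).1
  obtain ⟨hP2, hP2'⟩ := mem_Ioc.mp (mem_filter.mp hp2).1
  rw [sc1_mem_II] at hm1 hm2
  have hp0 : 0 < p1 := by omega
  have hdd : dd m1 p1 p2 (p1 * k) = ((m1 : ℤ) - p2 * k).natAbs := by
    unfold dd
    rw [Nat.mul_div_cancel_left _ hp0]
  by_cases he : m1 = p2 * k
  · left
    refine ⟨⟨k, he⟩, ?_⟩
    rw [he]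
    ring
  · right
    refine ⟨dvd_mul_right _ _, ?_, ?_, ?_⟩
    · rw [hdd]
      have hco : Nat.Coprime p1 n := (Nat.Prime.coprime_iff_not_dvd hpp1).mpr h1
      have h4 : p1 * m1 ≡ p1 * (p2 * k) [MOD n] := by
        refine h3.trans ?_
        have : p2 * (p1 * k) = p1 * (p2 * k) := by ring
        rw [this]
      have h5 : m1 ≡ p2 * k [MOD n] :=
        Nat.ModEq.cancel_left_of_coprime (by rw [Nat.gcd_comm]; exact hco) h4
      have h6 := Nat.modEq_iff_dvd.mp h5.symm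
      push_cast at h6
      exact Int.natCast_dvd.mp h6
    · rw [hdd]
      intro h0
      rw [Int.natAbs_eq_zero] at h0
      apply he
      have : (m1 : ℤ) = p2 * k := by linarith
      exact_mod_cast this
    · rw [hdd]
      have h4 : p2 * k < 4 * (2 * N + 1) := by
        have h5 : p1 * (p2 * k) < p1 * (4 * (2 * N + 1)) := by
          calc p1 * (p2 * k) = p2 * (p1 * k) := by ring
            _ ≤ (4 * P) * (2 * N + 1) := Nat.mul_le_mul hP2' hm2.2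
            _ = P * (4 * (2 * N + 1)) := by ring
            _ < p1 * (4 * (2 * N + 1)) := Nat.mul_lt_mul_of_pos_right hP1 (by omega)
        exact Nat.lt_of_mul_lt_mul_left h5
      have h5 : ((p2 * k : ℕ) : ℤ) = (p2 : ℤ) * k := by push_cast; ring
      rw [← h5]
      omega

private theorem sc1_count (N P : ℕ) (hN : 1 ≤ N) (hP : 1 ≤ P) (hPN : P ≤ N)
    (hw : ∀ m ∈ II N, ((PP P).filter (fun p => p ∣ m)).card ≤ 30) {m1 : ℕ} (hm1 : m1 ∈ II N) :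
    ∑ n ∈ II N, ∑ p1 ∈ PP P, ∑ p2 ∈ PP P, ∑ m2 ∈ II N,
      (if (¬ p1 ∣ n ∧ ¬ p2 ∣ n ∧ p1 * m1 ≡ p2 * m2 [MOD n]) ∧ p1 ∣ m2 then (1 : ℝ) else 0) ≤
      123 * N * (PP P).card := by
  have hN1 : (1 : ℝ) ≤ N := by exact_mod_cast hN
  have hP1 : (1 : ℝ) ≤ P := by exact_mod_cast hP
  have hPN1 : (P : ℝ) ≤ N := by exact_mod_cast hPN
  have hII : ((II N).card : ℝ) ≤ 2 * N := by
    rw [sc1_card_II]; push_cast; linarith
  have hA : ∑ n ∈ II N, ∑ p1 ∈ PP P, ∑ p2 ∈ PP P, ∑ m2 ∈ II N,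
      (if p2 ∣ m1 ∧ p1 * m1 = p2 * m2 then (1 : ℝ) else 0) ≤ 60 * N * (PP P).card := by
    have h1 : ∀ p1 ∈ PP P, ∑ p2 ∈ PP P, ∑ m2 ∈ II N,
        (if p2 ∣ m1 ∧ p1 * m1 = p2 * m2 then (1 : ℝ) else 0) ≤ 30 := by
      intro p1 _
      have h2 : ∀ p2 ∈ PP P, ∑ m2 ∈ II N,
          (if p2 ∣ m1 ∧ p1 * m1 = p2 * m2 then (1 : ℝ) else 0) ≤
          if p2 ∣ m1 then (1 : ℝ) else 0 := by
        intro p2 hp2
        have hp20 : 0 < p2 := (mem_filter.mp hp2).2.pos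
        by_cases hd : p2 ∣ m1
        · rw [if_pos hd, ← sum_filter, sum_const, nsmul_eq_mul, mul_one]
          have h3 : ((II N).filter (fun m2 => p2 ∣ m1 ∧ p1 * m1 = p2 * m2)).card ≤ 1 := by
            rw [card_le_one]
            intro a ha b hb
            rw [mem_filter] at ha hb
            exact Nat.eq_of_mul_eq_mul_left hp20 (ha.2.2.symm.trans hb.2.2)
          exact_mod_cast h3
        · rw [if_neg hd]
          exact (sum_eq_zero fun m2 _ => if_neg fun h => hd h.1).le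
      refine (sum_le_sum h2).trans ?_
      rw [← sum_filter, sum_const, nsmul_eq_mul, mul_one]
      exact_mod_cast hw m1 hm1
    calc _ ≤ ∑ n ∈ II N, ∑ p1 ∈ PP P, (30 : ℝ) :=
          sum_le_sum fun n _ => sum_le_sum fun p1 hp1 => h1 p1 hp1
      _ = ((II N).card : ℝ) * ((PP P).card * 30) := by
          simp only [sum_const, nsmul_eq_mul]
      _ ≤ (2 * N) * ((PP P).card * 30) := mul_le_mul_of_nonneg_right hII (by positivity)
      _ = _ := by ring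
  have hB : ∑ n ∈ II N, ∑ p1 ∈ PP P, ∑ p2 ∈ PP P, ∑ m2 ∈ II N,
      (if p1 ∣ m2 ∧ n ∣ dd m1 p1 p2 m2 ∧ dd m1 p1 p2 m2 ≠ 0 ∧ dd m1 p1 p2 m2 < 8 * (N + 1) then
        (1 : ℝ) else 0) ≤ 63 * N * (PP P).card := by
    have h1 : ∑ n ∈ II N, ∑ p1 ∈ PP P, ∑ p2 ∈ PP P, ∑ m2 ∈ II N,
        (if p1 ∣ m2 ∧ n ∣ dd m1 p1 p2 m2 ∧ dd m1 p1 p2 m2 ≠ 0 ∧
          dd m1 p1 p2 m2 < 8 * (N + 1) then (1 : ℝ) else 0) =
        ∑ p1 ∈ PP P, ∑ p2 ∈ PP P, ∑ m2 ∈ II N, ∑ n ∈ II N,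
        (if p1 ∣ m2 ∧ n ∣ dd m1 p1 p2 m2 ∧ dd m1 p1 p2 m2 ≠ 0 ∧
          dd m1 p1 p2 m2 < 8 * (N + 1) then (1 : ℝ) else 0) := by
      rw [sum_comm]
      refine sum_congr rfl fun p1 _ => ?_
      rw [sum_comm]
      refine sum_congr rfl fun p2 _ => ?_
      rw [sum_comm]
    rw [h1]
    have h2 : ∀ p1 ∈ PP P, ∀ p2 ∈ PP P, ∑ m2 ∈ II N, ∑ n ∈ II N,
        (if p1 ∣ m2 ∧ n ∣ dd m1 p1 p2 m2 ∧ dd m1 p1 p2 m2 ≠ 0 ∧
          dd m1 p1 p2 m2 < 8 * (N + 1) then (1 : ℝ) else 0) ≤ 7 * (2 * N / P + 1) := by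
      intro p1 hp1 p2 _
      have h3 : ∀ m2 ∈ II N, ∑ n ∈ II N,
          (if p1 ∣ m2 ∧ n ∣ dd m1 p1 p2 m2 ∧ dd m1 p1 p2 m2 ≠ 0 ∧
            dd m1 p1 p2 m2 < 8 * (N + 1) then (1 : ℝ) else 0) ≤
          if p1 ∣ m2 then (7 : ℝ) else 0 := by
        intro m2 _
        by_cases hd : p1 ∣ m2 ∧ dd m1 p1 p2 m2 ≠ 0 ∧ dd m1 p1 p2 m2 < 8 * (N + 1)
        · rw [if_pos hd.1]
          calc _ ≤ ∑ n ∈ II N, (if n ∣ dd m1 p1 p2 m2 then (1 : ℝ) else 0) := by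
                refine sum_le_sum fun n _ => ?_
                by_cases h : n ∣ dd m1 p1 p2 m2
                · rw [if_pos h]
                  split_ifs
                  · exact le_rfl
                  · exact zero_le_one
                · rw [if_neg h, if_neg fun h' => h h'.2.1]
            _ = (((II N).filter (fun n => n ∣ dd m1 p1 p2 m2)).card : ℝ) := by
                rw [← sum_filter, sum_const, nsmul_eq_mul, mul_one]
            _ ≤ 7 := by exact_mod_cast sc1_dvd_card hd.2.1 hd.2.2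
        · refine (sum_eq_zero fun n _ => if_neg fun h => hd ⟨h.1, h.2.2⟩).le.trans ?_
          split_ifs
          · norm_num
          · exact le_rfl
      refine (sum_le_sum h3).trans ?_
      rw [← sum_filter, sum_const, nsmul_eq_mul, mul_comm]
      exact mul_le_mul_of_nonneg_left
        (sc1_card_mult N P p1 hN hP (mem_Ioc.mp (mem_filter.mp hp1).1).1) (by norm_num)
    have hc : ((PP P).card : ℝ) ≤ 3 * P := by
      have h4 : (PP P).card ≤ 3 * P := by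
        unfold PP
        refine (card_filter_le _ _).trans ?_
        rw [Nat.card_Ioc]
        omega
      exact_mod_cast h4
    calc _ ≤ ∑ p1 ∈ PP P, ∑ p2 ∈ PP P, (7 * (2 * N / P + 1) : ℝ) :=
          sum_le_sum fun p1 hp1 => sum_le_sum fun p2 hp2 => h2 p1 hp1 p2 hp2
      _ = ((PP P).card : ℝ) * ((PP P).card * (7 * (2 * N / P + 1))) := by
          simp only [sum_const, nsmul_eq_mul]
      _ ≤ ((PP P).card : ℝ) * ((3 * P) * (7 * (2 * N / P + 1))) := by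
          refine mul_le_mul_of_nonneg_left ?_ (by positivity)
          exact mul_le_mul_of_nonneg_right hc (by positivity)
      _ = ((PP P).card : ℝ) * (21 * (2 * N + P)) := by
          field_simp
          ring
      _ ≤ ((PP P).card : ℝ) * (21 * (3 * N)) := by
          refine mul_le_mul_of_nonneg_left ?_ (by positivity)
          linarith
      _ = _ := by ring
  calc _ ≤ ∑ n ∈ II N, ∑ p1 ∈ PP P, ∑ p2 ∈ PP P, ∑ m2 ∈ II N,
        ((if p2 ∣ m1 ∧ p1 * m1 = p2 * m2 then (1 : ℝ) else 0) +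
        (if p1 ∣ m2 ∧ n ∣ dd m1 p1 p2 m2 ∧ dd m1 p1 p2 m2 ≠ 0 ∧
          dd m1 p1 p2 m2 < 8 * (N + 1) then (1 : ℝ) else 0)) := by
        refine sum_le_sum fun n _ => sum_le_sum fun p1 hp1 => sum_le_sum fun p2 hp2 =>
          sum_le_sum fun m2 hm2 => ?_
        by_cases h : (¬ p1 ∣ n ∧ ¬ p2 ∣ n ∧ p1 * m1 ≡ p2 * m2 [MOD n]) ∧ p1 ∣ m2
        · rw [if_pos h]
          rcases sc1_key hp1 hp2 hm1 hm2 h with h' | h'
          · rw [if_pos h']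
            split_ifs <;> norm_num
          · rw [if_pos h']
            split_ifs <;> norm_num
        · rw [if_neg h]
          positivity
    _ = (∑ n ∈ II N, ∑ p1 ∈ PP P, ∑ p2 ∈ PP P, ∑ m2 ∈ II N,
          (if p2 ∣ m1 ∧ p1 * m1 = p2 * m2 then (1 : ℝ) else 0)) +
        ∑ n ∈ II N, ∑ p1 ∈ PP P, ∑ p2 ∈ PP P, ∑ m2 ∈ II N,
          (if p1 ∣ m2 ∧ n ∣ dd m1 p1 p2 m2 ∧ dd m1 p1 p2 m2 ≠ 0 ∧
            dd m1 p1 p2 m2 < 8 * (N + 1) then (1 : ℝ) else 0) := by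
        simp only [sum_add_distrib]
    _ ≤ 60 * N * (PP P).card + 63 * N * (PP P).card := add_le_add hA hB
    _ = _ := by ring

theorem s2_cnt (N P : ℕ) (hN : 1 ≤ N) (hP : 1 ≤ P) (hPN : P ≤ N)
    (hw : ∀ m ∈ II N, ((PP P).filter (fun p => p ∣ m)).card ≤ 30) (b : ℕ → ℝ)
    (hb : ∀ m, 0 ≤ b m) :
    ∑ n ∈ II N, ∑ p1 ∈ PP P, ∑ p2 ∈ PP P, ∑ m1 ∈ II N, ∑ m2 ∈ II N,
      (if (¬ p1 ∣ n ∧ ¬ p2 ∣ n ∧ p1 * m1 ≡ p2 * m2 [MOD n]) ∧ p1 ∣ m2 then b m1 else 0) ≤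
      123 * N * (PP P).card * ∑ m ∈ II N, b m := by
  have h1 : ∑ n ∈ II N, ∑ p1 ∈ PP P, ∑ p2 ∈ PP P, ∑ m1 ∈ II N, ∑ m2 ∈ II N,
      (if (¬ p1 ∣ n ∧ ¬ p2 ∣ n ∧ p1 * m1 ≡ p2 * m2 [MOD n]) ∧ p1 ∣ m2 then b m1 else 0) =
      ∑ m1 ∈ II N, b m1 * ∑ n ∈ II N, ∑ p1 ∈ PP P, ∑ p2 ∈ PP P, ∑ m2 ∈ II N,
      (if (¬ p1 ∣ n ∧ ¬ p2 ∣ n ∧ p1 * m1 ≡ p2 * m2 [MOD n]) ∧ p1 ∣ m2 then (1 : ℝ) else 0) := by
    simp only [mul_sum, mul_ite, mul_one, mul_zero]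
    have h2 : ∀ n ∈ II N, ∑ p1 ∈ PP P, ∑ p2 ∈ PP P, ∑ m1 ∈ II N, ∑ m2 ∈ II N,
        (if (¬ p1 ∣ n ∧ ¬ p2 ∣ n ∧ p1 * m1 ≡ p2 * m2 [MOD n]) ∧ p1 ∣ m2 then b m1 else 0) =
        ∑ m1 ∈ II N, ∑ p1 ∈ PP P, ∑ p2 ∈ PP P, ∑ m2 ∈ II N,
        (if (¬ p1 ∣ n ∧ ¬ p2 ∣ n ∧ p1 * m1 ≡ p2 * m2 [MOD n]) ∧ p1 ∣ m2 then b m1 else 0) := by
      intro n _
      rw [sum_congr rfl fun p1 _ => sum_comm]
      rw [sum_comm]
    rw [sum_congr rfl h2, sum_comm]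
  rw [h1, mul_sum]
  refine sum_le_sum fun m1 hm1 => ?_
  rw [mul_comm (123 * (N : ℝ) * ((PP P).card : ℝ))]
  exact mul_le_mul_of_nonneg_left (sc1_count N P hN hP hPN hw hm1) (hb m1)

end Pool.Agent.H35.KL
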