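import Pool.Agent.H35.KL.Defs

/-!
# Counting the degenerate terms, second weight

Fixed `m2`: at most 30 primes `p1 ∣ m2` in `PP P`, `n` and `p2` are free (`#II N = N + 1 ≤ 2 N`), and
then there is at most one `m1`, since `p1` is invertible modulo `n`.
-/

set_option autoImplicit false

namespace Pool.Agent.H35.KL

open Finset
open Pool.Agent.H80.KF

private theorem sc2_mem_II {N m : ℕ} : m ∈ II N ↔ N < m ∧ m ≤ 2 * N + 1 := by
  unfold II; exact mem_Ioc

private theorem sc2_uniq {N n a b : ℕ} (hn : n ∈ II N) (ha : a ∈ II N) (hb : b ∈ II N)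
    (h : a ≡ b [MOD n]) : a = b := by
  rw [sc2_mem_II] at hn ha hb
  have h1 := (Nat.modEq_iff_dvd.mp h)
  have h2 : (b : ℤ) - a = 0 := by
    apply Int.eq_zero_of_abs_lt_dvd h1
    rw [abs_lt]
    constructor <;> omega
  omega

private theorem sc2_card (N n p c : ℕ) (hn : n ∈ II N) (hp : Nat.Coprime p n) :
    ((II N).filter (fun m => p * m ≡ c [MOD n])).card ≤ 1 := by
  rw [card_le_one]
  intro a ha b hb
  rw [mem_filter] at ha hb
  have h : p * a ≡ p * b [MOD n] := ha.2.trans hb.2.symm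
  exact sc2_uniq hn ha.1 hb.1 (Nat.ModEq.cancel_left_of_coprime (by rw [Nat.gcd_comm]; exact hp) h)

private theorem sc2_inner (N n p1 p2 : ℕ) (hn : n ∈ II N) (hp : p1.Prime) (b : ℕ → ℝ)
    (hb : ∀ m, 0 ≤ b m) :
    ∑ m1 ∈ II N, ∑ m2 ∈ II N,
      (if (¬ p1 ∣ n ∧ ¬ p2 ∣ n ∧ p1 * m1 ≡ p2 * m2 [MOD n]) ∧ p1 ∣ m2 then b m2 else 0) ≤
      ∑ m2 ∈ II N, (if p1 ∣ m2 then b m2 else 0) := by
  rw [sum_comm]
  refine sum_le_sum fun m2 _ => ?_
  by_cases hd : p1 ∣ m2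
  · rw [if_pos hd]
    by_cases h1 : p1 ∣ n
    · refine (le_of_eq ?_).trans (hb m2)
      exact sum_eq_zero fun m1 _ => if_neg fun h => h.1.1 h1
    · have hco : Nat.Coprime p1 n := (Nat.Prime.coprime_iff_not_dvd hp).mpr h1
      calc ∑ m1 ∈ II N,
            (if (¬ p1 ∣ n ∧ ¬ p2 ∣ n ∧ p1 * m1 ≡ p2 * m2 [MOD n]) ∧ p1 ∣ m2 then b m2 else 0)
          ≤ ∑ m1 ∈ II N, (if p1 * m1 ≡ p2 * m2 [MOD n] then b m2 else 0) := by
            refine sum_le_sum fun m1 _ => ?_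
            by_cases h : p1 * m1 ≡ p2 * m2 [MOD n]
            · rw [if_pos h]
              split_ifs
              · exact le_rfl
              · exact hb m2
            · rw [if_neg h, if_neg fun h' => h h'.1.2.2]
        _ = (((II N).filter (fun m1 => p1 * m1 ≡ p2 * m2 [MOD n])).card : ℝ) * b m2 := by
            rw [← sum_filter, sum_const, nsmul_eq_mul]
        _ ≤ 1 * b m2 := by
            refine mul_le_mul_of_nonneg_right ?_ (hb m2)
            exact_mod_cast sc2_card N n p1 (p2 * m2) hn hco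
        _ = b m2 := one_mul _
  · rw [if_neg hd]
    exact (sum_eq_zero fun m1 _ => if_neg fun h => hd h.2).le

theorem s2_cnt' (N P : ℕ) (hN : 1 ≤ N)
    (hw : ∀ m ∈ II N, ((PP P).filter (fun p => p ∣ m)).card ≤ 30) (b : ℕ → ℝ)
    (hb : ∀ m, 0 ≤ b m) :
    ∑ n ∈ II N, ∑ p1 ∈ PP P, ∑ p2 ∈ PP P, ∑ m1 ∈ II N, ∑ m2 ∈ II N,
      (if (¬ p1 ∣ n ∧ ¬ p2 ∣ n ∧ p1 * m1 ≡ p2 * m2 [MOD n]) ∧ p1 ∣ m2 then b m2 else 0) ≤
      60 * N * (PP P).card * ∑ m ∈ II N, b m := by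
  have hN1 : (1 : ℝ) ≤ N := by exact_mod_cast hN
  have hII : ((II N).card : ℝ) ≤ 2 * N := by
    unfold II
    rw [Nat.card_Ioc]
    have h : 2 * N + 1 - N = N + 1 := by omega
    rw [h]
    push_cast
    linarith
  have hB : 0 ≤ ∑ m ∈ II N, b m := sum_nonneg fun m _ => hb m
  have h1 : ∑ p1 ∈ PP P, ∑ m2 ∈ II N, (if p1 ∣ m2 then b m2 else 0) ≤
      30 * ∑ m ∈ II N, b m := by
    rw [sum_comm, mul_sum]
    refine sum_le_sum fun m hm => ?_
    rw [← sum_filter, sum_const, nsmul_eq_mul]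
    refine mul_le_mul_of_nonneg_right ?_ (hb m)
    exact_mod_cast hw m hm
  calc _ ≤ ∑ n ∈ II N, ∑ p1 ∈ PP P, ∑ p2 ∈ PP P,
        ∑ m2 ∈ II N, (if p1 ∣ m2 then b m2 else 0) := by
        refine sum_le_sum fun n hn => sum_le_sum fun p1 hp1 => sum_le_sum fun p2 _ => ?_
        exact sc2_inner N n p1 p2 hn (mem_filter.mp hp1).2 b hb
    _ = ((II N).card : ℝ) * (((PP P).card : ℝ) *
          ∑ p1 ∈ PP P, ∑ m2 ∈ II N, (if p1 ∣ m2 then b m2 else 0)) := by
        simp only [sum_const, nsmul_eq_mul]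
        rw [← mul_sum]
    _ ≤ (2 * N) * (((PP P).card : ℝ) * (30 * ∑ m ∈ II N, b m)) := by
        refine mul_le_mul hII (mul_le_mul_of_nonneg_left h1 (by positivity)) ?_ (by positivity)
        refine mul_nonneg (by positivity) (sum_nonneg fun p _ => sum_nonneg fun m _ => ?_)
        split_ifs
        · exact hb m
        · exact le_rfl
    _ = _ := by ring

end Pool.Agent.H35.KL
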