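import Pool.Agent.H35.KL.Sc1
import Pool.Agent.H35.KL.Sc2

/-!
# The amplified sum, `ℓ²` form

Copy of `split` of KF (Pool/Agent/H80/KF/Split.lean) with `‖α‖₂` in place of the sup norm.
`first2`: `p1 = p2` forces `m1 = m2`.  `second2`: `‖α m1‖ ‖α m2‖ ≤ (‖α m1‖² + ‖α m2‖²)/2`, the two cases
`p1 ∣ m2` and `p2 ∣ m1` are exchanged by the symmetry `(p1, m1) ↔ (p2, m2)`; `s2_cnt`, `s2_cnt'`.
-/

set_option autoImplicit false

namespace Pool.Agent.H35.KL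

open Finset
open Pool.Agent.H80.KF

private theorem mem_II {N m : ℕ} : m ∈ II N ↔ N < m ∧ m ≤ 2 * N + 1 := by
  unfold II; exact mem_Ioc

private theorem card_II (N : ℕ) : (II N).card = N + 1 := by
  unfold II; rw [Nat.card_Ioc]; omega

private theorem uniq {N n a b : ℕ} (hn : n ∈ II N) (ha : a ∈ II N) (hb : b ∈ II N)
    (h : a ≡ b [MOD n]) : a = b := by
  rw [mem_II] at hn ha hb
  have h1 := (Nat.modEq_iff_dvd.mp h)
  have h2 : (b : ℤ) - a = 0 := by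
    apply Int.eq_zero_of_abs_lt_dvd h1
    rw [abs_lt]
    constructor <;> omega
  omega

private theorem card_uniq (N n p c : ℕ) (hn : n ∈ II N) (hp : Nat.Coprime p n) :
    ((II N).filter (fun m => p * m ≡ c [MOD n])).card ≤ 1 := by
  rw [card_le_one]
  intro a ha b hb
  rw [mem_filter] at ha hb
  have h : p * a ≡ p * b [MOD n] := ha.2.trans hb.2.symm
  exact uniq hn ha.1 hb.1 (Nat.ModEq.cancel_left_of_coprime (by rw [Nat.gcd_comm]; exact hp) h)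

private theorem card_uniq' (N n p c : ℕ) (hn : n ∈ II N) (hp : Nat.Coprime p n) :
    ((II N).filter (fun m => c ≡ p * m [MOD n])).card ≤ 1 := by
  refine le_trans (card_le_card ?_) (card_uniq N n p c hn hp)
  intro m hm
  rw [mem_filter] at hm ⊢
  exact ⟨hm.1, hm.2.symm⟩

/-- the condition for a term of the amplified sum -/
private def CC (n p1 p2 m1 m2 : ℕ) : Prop :=
  ¬ p1 ∣ n ∧ ¬ p2 ∣ n ∧ Nat.Coprime m1 n ∧ Nat.Coprime m2 n ∧ p1 * m1 ≡ p2 * m2 [MOD n]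

/-- the term -/
private noncomputable def tt (η : ℤ) (α : ℕ → ℂ) (F : ℝ → ℂ) (n p1 p2 m1 m2 : ℕ) : ℂ :=
  (α m1 * F ((m1 : ℝ) * n)) * (starRingEnd ℂ) (α m2 * F ((m2 : ℝ) * n)) *
    kf n (η * ((p1 : ℤ) - p2)) (p1 * m1)

private theorem norm_tt2 (η : ℤ) (α : ℕ → ℂ) (F : ℝ → ℂ)
    (hF : ∀ y, ‖F y‖ ≤ 1) (n p1 p2 m1 m2 : ℕ) :
    ‖tt η α F n p1 p2 m1 m2‖ ≤ ‖α m1‖ * ‖α m2‖ := by
  unfold tt
  rw [norm_mul, norm_kf, mul_one, norm_mul, RCLike.norm_conj, norm_mul, norm_mul]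
  have h1 : ‖α m1‖ * ‖F ((m1 : ℝ) * n)‖ ≤ ‖α m1‖ :=
    mul_le_of_le_one_right (norm_nonneg _) (hF _)
  have h2 : ‖α m2‖ * ‖F ((m2 : ℝ) * n)‖ ≤ ‖α m2‖ :=
    mul_le_of_le_one_right (norm_nonneg _) (hF _)
  exact mul_le_mul h1 h2 (by positivity) (norm_nonneg _)

open Classical in
/-- the third part is `UU` -/
private theorem third (N P : ℕ) (hN : 1 ≤ N) (η : ℤ) (α : ℕ → ℂ) (F : ℝ → ℂ) :
    ∑ n ∈ II N, ∑ p1 ∈ PP P, ∑ p2 ∈ PP P, ∑ m1 ∈ II N, ∑ m2 ∈ II N,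
      (if CC n p1 p2 m1 m2 ∧ p1 ≠ p2 ∧ ¬ (p1 ∣ m2 ∨ p2 ∣ m1) then tt η α F n p1 p2 m1 m2 else 0) =
    UU F η N P α := by
  have key : ∀ m1 ∈ II N, ∀ m2 ∈ II N, ∀ p1 ∈ PP P, ∀ p2 ∈ PP P,
      ∑ n ∈ II N, (if CC n p1 p2 m1 m2 ∧ p1 ≠ p2 ∧ ¬ (p1 ∣ m2 ∨ p2 ∣ m1) then
        tt η α F n p1 p2 m1 m2 else 0) =
      ∑ r ∈ Icc (-(8 * P : ℤ)) (8 * P),
        α m1 * (starRingEnd ℂ) (α m2) * gg F η N (p1, p2, r) m1 m2 := by
    intro m1 hm1 m2 hm2 p1 hp1 p2 hp2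
    have hp1' := (mem_filter.mp hp1)
    have hp2' := (mem_filter.mp hp2)
    have hP1 := mem_Ioc.mp hp1'.1
    have hP2 := mem_Ioc.mp hp2'.1
    rw [mem_II] at hm1 hm2
    simp only [gg, mul_ite, mul_zero]
    rw [← sum_filter, ← sum_filter]
    symm
    refine sum_nbij' (fun r => nn p1 p2 r m1 m2)
      (fun n => ((p1 : ℤ) * m1 - (p2 : ℤ) * m2) / n) ?_ ?_ ?_ ?_ ?_
    · intro r hr
      rw [mem_filter] at hr ⊢
      obtain ⟨_, h1, h2, h3, h4, h5, h6, h7⟩ := hr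
      refine ⟨h6, ⟨?_, ?_, ?_, ?_, ?_⟩, h1, ?_⟩
      · intro hd
        have := Nat.Coprime.coprime_dvd_left hd h7
        have h8 := Nat.Coprime.eq_one_of_dvd this (dvd_mul_right p1 m1)
        exact hp1'.2.one_lt.ne' h8
      · intro hd
        have h9 : (p2 : ℤ) ∣ (p1 : ℤ) * m1 := by
          have : (p1 : ℤ) * m1 = r * (nn p1 p2 r m1 m2 : ℤ) + p2 * m2 := by rw [h5]; ring
          rw [this]
          exact dvd_add (Dvd.dvd.mul_left (by exact_mod_cast hd) _) (dvd_mul_right _ _)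
        have h10 : p2 ∣ p1 * m1 := by exact_mod_cast h9
        have h11 := Nat.Coprime.coprime_dvd_left hd h7
        exact hp2'.2.one_lt.ne' (Nat.Coprime.eq_one_of_dvd h11 h10)
      · exact (Nat.Coprime.coprime_dvd_right (dvd_mul_left m1 p1) h7).symm
      · have h8 : Nat.Coprime (nn p1 p2 r m1 m2) (p2 * m2) := by
          have hg : ((Nat.gcd (nn p1 p2 r m1 m2) (p2 * m2) : ℕ) : ℤ) ∣ (p1 : ℤ) * m1 := by
            have h12 : (p1 : ℤ) * m1 = r * (nn p1 p2 r m1 m2 : ℤ) + p2 * m2 := by rw [h5]; ring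
            rw [h12]
            refine dvd_add (Dvd.dvd.mul_left ?_ _) ?_
            · exact_mod_cast Nat.gcd_dvd_left _ _
            · exact_mod_cast Nat.gcd_dvd_right (nn p1 p2 r m1 m2) (p2 * m2)
          have hg' : Nat.gcd (nn p1 p2 r m1 m2) (p2 * m2) ∣ p1 * m1 := by exact_mod_cast hg
          have h13 := Nat.dvd_gcd (Nat.gcd_dvd_left (nn p1 p2 r m1 m2) (p2 * m2)) hg'
          rw [Nat.Coprime] at h7
          rw [h7] at h13
          exact Nat.dvd_one.mp h13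
        exact (Nat.Coprime.coprime_dvd_right (dvd_mul_left m2 p2) h8).symm
      · apply Nat.ModEq.symm
        rw [Nat.modEq_iff_dvd]
        push_cast
        rw [← h5]
        exact dvd_mul_left _ _
      · rintro (h | h)
        · exact h2 h
        · exact h3 h
    · intro n hn
      rw [mem_filter] at hn ⊢
      obtain ⟨hn1, ⟨h1, h2, h3, h4, h5⟩, h6, h7⟩ := hn
      rw [mem_II] at hn1
      have hd := Nat.modEq_iff_dvd.mp h5.symm
      push_cast at hd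
      have hn0 : (n : ℤ) ≠ 0 := by omega
      have hr := Int.ediv_mul_cancel hd
      set r := ((p1 : ℤ) * m1 - (p2 : ℤ) * m2) / n with hrdef
      have hne : (p1 : ℤ) * m1 - (p2 : ℤ) * m2 ≠ 0 := by
        intro h0
        have h8 : p1 * m1 = p2 * m2 := by
          have : (p1 : ℤ) * m1 = p2 * m2 := by linarith
          exact_mod_cast this
        have h9 : p1 ∣ p2 * m2 := h8 ▸ dvd_mul_right p1 m1
        rcases (Nat.Prime.dvd_mul hp1'.2).mp h9 with h10 | h10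
        · exact h6 ((Nat.prime_dvd_prime_iff_eq hp1'.2 hp2'.2).mp h10)
        · exact h7 (Or.inl h10)
      have hr0 : r ≠ 0 := by
        intro h0
        rw [h0, zero_mul] at hr
        exact hne hr.symm
      have hnn : nn p1 p2 r m1 m2 = n := by
        unfold nn
        rw [← hr, Int.mul_ediv_cancel_left _ hr0, Int.toNat_natCast]
      refine ⟨?_, h6, fun h => h7 (Or.inl h), fun h => h7 (Or.inr h), hr0, ?_, ?_, ?_⟩
      · rw [mem_Icc]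
        have e1 : (p1 : ℤ) * m1 ≤ 4 * P * (2 * N + 1) := by
          have a1 : (p1 : ℤ) ≤ 4 * P := by exact_mod_cast hP1.2
          have a2 : (m1 : ℤ) ≤ 2 * N + 1 := by exact_mod_cast hm1.2
          exact mul_le_mul a1 a2 (by positivity) (by positivity)
        have e2 : (p2 : ℤ) * m2 ≤ 4 * P * (2 * N + 1) := by
          have a1 : (p2 : ℤ) ≤ 4 * P := by exact_mod_cast hP2.2
          have a2 : (m2 : ℤ) ≤ 2 * N + 1 := by exact_mod_cast hm2.2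
          exact mul_le_mul a1 a2 (by positivity) (by positivity)
        have e3 : (0 : ℤ) ≤ (p1 : ℤ) * m1 := by positivity
        have e4 : (0 : ℤ) ≤ (p2 : ℤ) * m2 := by positivity
        have hnN : (N : ℤ) + 1 ≤ n := by omega
        have hP0 : (0 : ℤ) ≤ P := by positivity
        have e5 : 4 * (P : ℤ) * (2 * N + 1) ≤ 8 * P * n := by nlinarith
        have hnpos : (0 : ℤ) < n := by omega
        constructor
        · by_contra hc
          push Not at hc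
          have : r * n ≤ (-(8 * (P : ℤ)) - 1) * n :=
            mul_le_mul_of_nonneg_right (by omega) hnpos.le
          rw [hr] at this
          nlinarith
        · by_contra hc
          push Not at hc
          have : (8 * (P : ℤ) + 1) * n ≤ r * n :=
            mul_le_mul_of_nonneg_right (by omega) hnpos.le
          rw [hr] at this
          nlinarith
      · rw [hnn]; exact hr
      · rw [hnn, mem_II]; exact hn1
      · rw [hnn]
        apply Nat.Coprime.mul_right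
        · exact ((Nat.Prime.coprime_iff_not_dvd hp1'.2).mpr h1).symm
        · exact h3.symm
    · intro r hr
      rw [mem_filter] at hr
      obtain ⟨_, h1, h2, h3, h4, h5, h6, h7⟩ := hr
      rw [mem_II] at h6
      rw [← h5]
      apply Int.mul_ediv_cancel
      have : 0 < nn p1 p2 r m1 m2 := by omega
      exact_mod_cast this.ne'
    · intro n hn
      rw [mem_filter] at hn
      obtain ⟨hn1, ⟨h1, h2, h3, h4, h5⟩, h6, h7⟩ := hn
      rw [mem_II] at hn1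
      have hd := Nat.modEq_iff_dvd.mp h5.symm
      push_cast at hd
      have hr := Int.ediv_mul_cancel hd
      have hne : (p1 : ℤ) * m1 - (p2 : ℤ) * m2 ≠ 0 := by
        intro h0
        have h8 : p1 * m1 = p2 * m2 := by
          have : (p1 : ℤ) * m1 = p2 * m2 := by linarith
          exact_mod_cast this
        have h9 : p1 ∣ p2 * m2 := h8 ▸ dvd_mul_right p1 m1
        rcases (Nat.Prime.dvd_mul hp1'.2).mp h9 with h10 | h10
        · exact h6 ((Nat.prime_dvd_prime_iff_eq hp1'.2 hp2'.2).mp h10)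
        · exact h7 (Or.inl h10)
      have hr0 : ((p1 : ℤ) * m1 - (p2 : ℤ) * m2) / n ≠ 0 := by
        intro h0
        rw [h0, zero_mul] at hr
        exact hne hr.symm
      simp only [nn]
      conv_lhs => rw [show ((p1 : ℤ) * m1 - (p2 : ℤ) * m2) =
        ((p1 : ℤ) * m1 - (p2 : ℤ) * m2) / n * n from hr.symm]
      rw [Int.mul_ediv_cancel _ (by omega : (n : ℤ) ≠ 0), Int.mul_ediv_cancel_left _ hr0,
        Int.toNat_natCast]
    · intro r hr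
      simp only [tt, map_mul]
      ring
  calc _ = ∑ m1 ∈ II N, ∑ m2 ∈ II N, ∑ p1 ∈ PP P, ∑ p2 ∈ PP P, ∑ n ∈ II N,
      (if CC n p1 p2 m1 m2 ∧ p1 ≠ p2 ∧ ¬ (p1 ∣ m2 ∨ p2 ∣ m1) then
        tt η α F n p1 p2 m1 m2 else 0) := by
        rw [sum_comm]
        rw [sum_congr rfl fun p1 _ => sum_comm]
        rw [sum_congr rfl fun p1 _ => sum_congr rfl fun p2 _ => sum_comm]
        rw [sum_congr rfl fun p1 _ => sum_congr rfl fun p2 _ => sum_congr rfl fun m1 _ => sum_comm]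
        rw [sum_congr rfl fun p1 _ => sum_comm]
        rw [sum_comm]
        refine sum_congr rfl fun m1 _ => ?_
        rw [sum_congr rfl fun p1 _ => sum_comm]
        rw [sum_comm]
    _ = UU F η N P α := by
        unfold UU
        refine sum_congr rfl fun m1 hm1 => sum_congr rfl fun m2 hm2 => ?_
        rw [TT, sum_product, mul_sum]
        refine sum_congr rfl fun p1 hp1 => ?_
        rw [sum_product, mul_sum]
        refine sum_congr rfl fun p2 hp2 => ?_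
        rw [key m1 hm1 m2 hm2 p1 hp1 p2 hp2, mul_sum]

open Classical in
private theorem first2 (N P : ℕ) (hN : 1 ≤ N) (η : ℤ) (α : ℕ → ℂ)
    (F : ℝ → ℂ) (hF : ∀ y, ‖F y‖ ≤ 1) :
    ‖∑ n ∈ II N, ∑ p1 ∈ PP P, ∑ p2 ∈ PP P, ∑ m1 ∈ II N, ∑ m2 ∈ II N,
      (if CC n p1 p2 m1 m2 ∧ p1 = p2 then tt η α F n p1 p2 m1 m2 else 0)‖ ≤
    2 * N * (PP P).card * n2 (II N) α := by
  have hN1 : (1 : ℝ) ≤ N := by exact_mod_cast hN
  have hII : ((II N).card : ℝ) ≤ 2 * N := by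
    rw [card_II]; push_cast; linarith
  have h1 : ∀ n ∈ II N, ∀ p1 ∈ PP P, ∀ m1 ∈ II N,
      ‖∑ m2 ∈ II N, (if CC n p1 p1 m1 m2 then tt η α F n p1 p1 m1 m2 else 0)‖ ≤ ‖α m1‖ ^ 2 := by
    intro n hn p1 hp1 m1 hm1
    by_cases hd : p1 ∣ n
    · rw [sum_eq_zero]
      · rw [norm_zero]; positivity
      · intro m2 _
        rw [if_neg]
        intro h
        exact h.1 hd
    · have hco : Nat.Coprime p1 n := (Nat.Prime.coprime_iff_not_dvd (mem_filter.mp hp1).2).mpr hd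
      calc ‖∑ m2 ∈ II N, (if CC n p1 p1 m1 m2 then tt η α F n p1 p1 m1 m2 else 0)‖
          ≤ ∑ m2 ∈ II N, ‖(if CC n p1 p1 m1 m2 then tt η α F n p1 p1 m1 m2 else 0)‖ :=
            norm_sum_le _ _
        _ ≤ ∑ m2 ∈ II N, (if m1 = m2 then ‖α m1‖ ^ 2 else 0) := by
            refine sum_le_sum fun m2 hm2 => ?_
            split_ifs with h h' h'
            · refine (norm_tt2 η α F hF n p1 p1 m1 m2).trans ?_
              rw [← h', sq]
            · exact absurd (uniq hn hm1 hm2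
                (Nat.ModEq.cancel_left_of_coprime (by rw [Nat.gcd_comm]; exact hco) h.2.2.2.2)) h'
            · rw [norm_zero]; positivity
            · simp
        _ = ‖α m1‖ ^ 2 := by rw [sum_ite_eq, if_pos hm1]
  have h2 : ∀ n ∈ II N, ∀ p1 ∈ PP P,
      ‖∑ p2 ∈ PP P, ∑ m1 ∈ II N, ∑ m2 ∈ II N,
        (if CC n p1 p2 m1 m2 ∧ p1 = p2 then tt η α F n p1 p2 m1 m2 else 0)‖ ≤ n2 (II N) α := by
    intro n hn p1 hp1
    rw [sum_eq_single p1]
    · simp only [and_true]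
      unfold n2
      refine (norm_sum_le _ _).trans (sum_le_sum fun m1 hm1 => h1 n hn p1 hp1 m1 hm1)
    · intro p2 _ hne
      refine sum_eq_zero fun m1 _ => sum_eq_zero fun m2 _ => ?_
      rw [if_neg]
      intro h
      exact hne h.2.symm
    · intro h
      exact absurd hp1 h
  calc _ ≤ ∑ n ∈ II N, ∑ p1 ∈ PP P, n2 (II N) α := by
        refine (norm_sum_le _ _).trans (sum_le_sum fun n hn => ?_)
        exact (norm_sum_le _ _).trans (sum_le_sum fun p1 hp1 => h2 n hn p1 hp1)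
    _ = ((II N).card : ℝ) * ((PP P).card * n2 (II N) α) := by
        rw [sum_const, sum_const, nsmul_eq_mul, nsmul_eq_mul]
    _ ≤ (2 * N) * ((PP P).card * n2 (II N) α) := by
        apply mul_le_mul_of_nonneg_right hII
        have := n2_nonneg (II N) α
        positivity
    _ = _ := by ring

private theorem second_half (N P : ℕ) (hN : 1 ≤ N) (hP : 1 ≤ P) (hPN : P ≤ N)
    (hw : ∀ m ∈ II N, ((PP P).filter (fun p => p ∣ m)).card ≤ 30) (α : ℕ → ℂ) :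
    ∑ n ∈ II N, ∑ p1 ∈ PP P, ∑ p2 ∈ PP P, ∑ m1 ∈ II N, ∑ m2 ∈ II N,
      (if (¬ p1 ∣ n ∧ ¬ p2 ∣ n ∧ p1 * m1 ≡ p2 * m2 [MOD n]) ∧ p1 ∣ m2 then
        ‖α m1‖ * ‖α m2‖ else 0) ≤ 183 / 2 * N * (PP P).card * n2 (II N) α := by
  have h1 := s2_cnt N P hN hP hPN hw (fun m => ‖α m‖ ^ 2) (fun m => by positivity)
  have h2 := s2_cnt' N P hN hw (fun m => ‖α m‖ ^ 2) (fun m => by positivity)
  have h3 : ∑ n ∈ II N, ∑ p1 ∈ PP P, ∑ p2 ∈ PP P, ∑ m1 ∈ II N, ∑ m2 ∈ II N,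
      (if (¬ p1 ∣ n ∧ ¬ p2 ∣ n ∧ p1 * m1 ≡ p2 * m2 [MOD n]) ∧ p1 ∣ m2 then
        ‖α m1‖ * ‖α m2‖ else 0) ≤
      ∑ n ∈ II N, ∑ p1 ∈ PP P, ∑ p2 ∈ PP P, ∑ m1 ∈ II N, ∑ m2 ∈ II N,
        (1 / 2 * (if (¬ p1 ∣ n ∧ ¬ p2 ∣ n ∧ p1 * m1 ≡ p2 * m2 [MOD n]) ∧ p1 ∣ m2 then
          (fun m => ‖α m‖ ^ 2) m1 else 0) +
        1 / 2 * (if (¬ p1 ∣ n ∧ ¬ p2 ∣ n ∧ p1 * m1 ≡ p2 * m2 [MOD n]) ∧ p1 ∣ m2 then
          (fun m => ‖α m‖ ^ 2) m2 else 0)) := by
    refine sum_le_sum fun n _ => sum_le_sum fun p1 _ => sum_le_sum fun p2 _ =>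
      sum_le_sum fun m1 _ => sum_le_sum fun m2 _ => ?_
    split_ifs with h
    · nlinarith [sq_nonneg (‖α m1‖ - ‖α m2‖)]
    · simp
  refine h3.trans ?_
  simp only [sum_add_distrib, ← mul_sum]
  unfold n2
  linarith

open Classical in
private theorem second2 (N P : ℕ) (hN : 1 ≤ N) (hP : 1 ≤ P) (hPN : P ≤ N) (η : ℤ) (α : ℕ → ℂ)
    (hw : ∀ m ∈ II N, ((PP P).filter (fun p => p ∣ m)).card ≤ 30)
    (F : ℝ → ℂ) (hF : ∀ y, ‖F y‖ ≤ 1) :
    ‖∑ n ∈ II N, ∑ p1 ∈ PP P, ∑ p2 ∈ PP P, ∑ m1 ∈ II N, ∑ m2 ∈ II N,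
      (if CC n p1 p2 m1 m2 ∧ p1 ≠ p2 ∧ (p1 ∣ m2 ∨ p2 ∣ m1) then
        tt η α F n p1 p2 m1 m2 else 0)‖ ≤
    183 * N * (PP P).card * n2 (II N) α := by
  have hh := second_half N P hN hP hPN hw α
  have hle : ∀ n p1 p2 m1 m2 : ℕ, ‖(if CC n p1 p2 m1 m2 ∧ p1 ≠ p2 ∧ (p1 ∣ m2 ∨ p2 ∣ m1) then
      tt η α F n p1 p2 m1 m2 else 0)‖ ≤
      (if (¬ p1 ∣ n ∧ ¬ p2 ∣ n ∧ p1 * m1 ≡ p2 * m2 [MOD n]) ∧ p1 ∣ m2 then
        ‖α m1‖ * ‖α m2‖ else 0) +
      (if (¬ p2 ∣ n ∧ ¬ p1 ∣ n ∧ p2 * m2 ≡ p1 * m1 [MOD n]) ∧ p2 ∣ m1 then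
        ‖α m2‖ * ‖α m1‖ else 0) := by
    intro n p1 p2 m1 m2
    have hnn : 0 ≤ ‖α m1‖ * ‖α m2‖ := by positivity
    have hnn' : 0 ≤ ‖α m2‖ * ‖α m1‖ := by positivity
    by_cases h : CC n p1 p2 m1 m2 ∧ p1 ≠ p2 ∧ (p1 ∣ m2 ∨ p2 ∣ m1)
    · rw [if_pos h]
      have h3 := norm_tt2 η α F hF n p1 p2 m1 m2
      obtain ⟨⟨c1, c2, -, -, c5⟩, -, h4⟩ := h
      rcases h4 with h4 | h4
      · rw [if_pos ⟨⟨c1, c2, c5⟩, h4⟩]
        have : (0 : ℝ) ≤ if (¬ p2 ∣ n ∧ ¬ p1 ∣ n ∧ p2 * m2 ≡ p1 * m1 [MOD n]) ∧ p2 ∣ m1 then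
            ‖α m2‖ * ‖α m1‖ else 0 := by split_ifs <;> simp [hnn']
        linarith
      · rw [if_pos (⟨⟨c2, c1, c5.symm⟩, h4⟩ :
          (¬ p2 ∣ n ∧ ¬ p1 ∣ n ∧ p2 * m2 ≡ p1 * m1 [MOD n]) ∧ p2 ∣ m1)]
        have : (0 : ℝ) ≤ if (¬ p1 ∣ n ∧ ¬ p2 ∣ n ∧ p1 * m1 ≡ p2 * m2 [MOD n]) ∧ p1 ∣ m2 then
            ‖α m1‖ * ‖α m2‖ else 0 := by split_ifs <;> simp [hnn]
        have h5 : ‖α m2‖ * ‖α m1‖ = ‖α m1‖ * ‖α m2‖ := mul_comm _ _
        linarith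
    · rw [if_neg h, norm_zero]
      have t1 : (0 : ℝ) ≤ if (¬ p2 ∣ n ∧ ¬ p1 ∣ n ∧ p2 * m2 ≡ p1 * m1 [MOD n]) ∧ p2 ∣ m1 then
            ‖α m2‖ * ‖α m1‖ else 0 := by split_ifs <;> simp [hnn']
      have t2 : (0 : ℝ) ≤ if (¬ p1 ∣ n ∧ ¬ p2 ∣ n ∧ p1 * m1 ≡ p2 * m2 [MOD n]) ∧ p1 ∣ m2 then
            ‖α m1‖ * ‖α m2‖ else 0 := by split_ifs <;> simp [hnn]
      linarith
  have hsw : ∑ n ∈ II N, ∑ p1 ∈ PP P, ∑ p2 ∈ PP P, ∑ m1 ∈ II N, ∑ m2 ∈ II N,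
      (if (¬ p2 ∣ n ∧ ¬ p1 ∣ n ∧ p2 * m2 ≡ p1 * m1 [MOD n]) ∧ p2 ∣ m1 then
        ‖α m2‖ * ‖α m1‖ else 0) =
      ∑ n ∈ II N, ∑ p1 ∈ PP P, ∑ p2 ∈ PP P, ∑ m1 ∈ II N, ∑ m2 ∈ II N,
      (if (¬ p1 ∣ n ∧ ¬ p2 ∣ n ∧ p1 * m1 ≡ p2 * m2 [MOD n]) ∧ p1 ∣ m2 then
        ‖α m1‖ * ‖α m2‖ else 0) := by
    refine sum_congr rfl fun n _ => ?_
    rw [sum_comm]
    refine sum_congr rfl fun p1 _ => sum_congr rfl fun p2 _ => ?_
    rw [sum_comm]
  calc _ ≤ ∑ n ∈ II N, ∑ p1 ∈ PP P, ∑ p2 ∈ PP P, ∑ m1 ∈ II N, ∑ m2 ∈ II N,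
      ((if (¬ p1 ∣ n ∧ ¬ p2 ∣ n ∧ p1 * m1 ≡ p2 * m2 [MOD n]) ∧ p1 ∣ m2 then
        ‖α m1‖ * ‖α m2‖ else 0) +
      (if (¬ p2 ∣ n ∧ ¬ p1 ∣ n ∧ p2 * m2 ≡ p1 * m1 [MOD n]) ∧ p2 ∣ m1 then
        ‖α m2‖ * ‖α m1‖ else 0)) := by
        refine (norm_sum_le _ _).trans (sum_le_sum fun n _ => ?_)
        refine (norm_sum_le _ _).trans (sum_le_sum fun p1 _ => ?_)
        refine (norm_sum_le _ _).trans (sum_le_sum fun p2 _ => ?_)
        refine (norm_sum_le _ _).trans (sum_le_sum fun m1 _ => ?_)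
        exact (norm_sum_le _ _).trans (sum_le_sum fun m2 _ => hle n p1 p2 m1 m2)
    _ = ∑ n ∈ II N, ∑ p1 ∈ PP P, ∑ p2 ∈ PP P, ∑ m1 ∈ II N, ∑ m2 ∈ II N,
      (if (¬ p1 ∣ n ∧ ¬ p2 ∣ n ∧ p1 * m1 ≡ p2 * m2 [MOD n]) ∧ p1 ∣ m2 then
        ‖α m1‖ * ‖α m2‖ else 0) + ∑ n ∈ II N, ∑ p1 ∈ PP P, ∑ p2 ∈ PP P, ∑ m1 ∈ II N,
          ∑ m2 ∈ II N,
      (if (¬ p2 ∣ n ∧ ¬ p1 ∣ n ∧ p2 * m2 ≡ p1 * m1 [MOD n]) ∧ p2 ∣ m1 then
        ‖α m2‖ * ‖α m1‖ else 0) := by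
        simp only [sum_add_distrib]
    _ ≤ _ := by
        rw [hsw]
        linarith

theorem split2 (N P : ℕ) (hN : 1 ≤ N) (hP : 1 ≤ P) (hPN : P ≤ N) (η : ℤ) (α : ℕ → ℂ)
    (F : ℝ → ℂ) (hF : ∀ y, ‖F y‖ ≤ 1) (h0 : 0 < (PP P).card)
    (hw : ∀ m ∈ II N, ((PP P).filter (fun p => p ∣ m)).card ≤ 30)
    (hPP : ∀ n ∈ II N, (PP P).card ≤ 2 * ((PP P).filter (fun p => ¬ p ∣ n)).card) :
    ∑ n ∈ II N, ‖∑ m ∈ (II N).filter (fun m => Nat.Coprime m n),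
        α m * F ((m : ℝ) * n) * kf n η m‖ ^ 2 ≤
      12 * N / ((PP P).card : ℝ) ^ 2 *
        (200 * N * (PP P).card * n2 (II N) α + ‖UU F η N P α‖) := by
  classical
  have hN1 : (1 : ℝ) ≤ N := by exact_mod_cast hN
  have hc : (0 : ℝ) < (PP P).card := by exact_mod_cast h0
  set A : ℕ → ℂ := fun n => ∑ p1 ∈ PP P, ∑ p2 ∈ PP P, ∑ m1 ∈ II N, ∑ m2 ∈ II N,
    (if CC n p1 p2 m1 m2 then tt η α F n p1 p2 m1 m2 else 0) with hA
  have h1 : ∀ n ∈ II N, ‖∑ m ∈ (II N).filter (fun m => Nat.Coprime m n),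
        α m * F ((m : ℝ) * n) * kf n η m‖ ^ 2 ≤ 12 * N / ((PP P).card : ℝ) ^ 2 * (A n).re := by
    intro n hn
    have hn' := mem_II.mp hn
    have hn1 : 1 ≤ n := by omega
    have h2 := amp n hn1 η ((II N).filter (fun m => Nat.Coprime m n))
      ((PP P).filter (fun p => ¬ p ∣ n)) (fun m hm => (mem_filter.mp hm).2)
      (fun p hp => (Nat.Prime.coprime_iff_not_dvd (mem_filter.mp (mem_filter.mp hp).1).2).mpr
        (mem_filter.mp hp).2) (fun m => α m * F ((m : ℝ) * n))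
    have h3 : (∑ p1 ∈ (PP P).filter (fun p => ¬ p ∣ n), ∑ p2 ∈ (PP P).filter (fun p => ¬ p ∣ n),
        ∑ m1 ∈ (II N).filter (fun m => Nat.Coprime m n),
        ∑ m2 ∈ ((II N).filter (fun m => Nat.Coprime m n)).filter
          (fun m2 => p1 * m1 ≡ p2 * m2 [MOD n]),
        (fun m => α m * F ((m : ℝ) * n)) m1 *
          (starRingEnd ℂ) ((fun m => α m * F ((m : ℝ) * n)) m2) *
          kf n (η * ((p1 : ℤ) - p2)) (p1 * m1)) = A n := by
      rw [hA]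
      simp only
      rw [sum_filter]
      refine sum_congr rfl fun p1 _ => ?_
      by_cases e1 : p1 ∣ n
      · rw [if_neg (not_not.mpr e1)]
        symm
        refine sum_eq_zero fun p2 _ => sum_eq_zero fun m1 _ => sum_eq_zero fun m2 _ => ?_
        rw [if_neg]
        intro h
        exact h.1 e1
      · rw [if_pos e1, sum_filter]
        refine sum_congr rfl fun p2 _ => ?_
        by_cases e2 : p2 ∣ n
        · rw [if_neg (not_not.mpr e2)]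
          symm
          refine sum_eq_zero fun m1 _ => sum_eq_zero fun m2 _ => ?_
          rw [if_neg]
          intro h
          exact h.2.1 e2
        · rw [if_pos e2, sum_filter]
          refine sum_congr rfl fun m1 _ => ?_
          by_cases e3 : Nat.Coprime m1 n
          · rw [if_pos e3, filter_filter, sum_filter]
            refine sum_congr rfl fun m2 _ => ?_
            by_cases e4 : Nat.Coprime m2 n ∧ p1 * m1 ≡ p2 * m2 [MOD n]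
            · rw [if_pos e4, if_pos ⟨e1, e2, e3, e4.1, e4.2⟩, tt]
            · rw [if_neg e4, if_neg]
              intro h
              exact e4 ⟨h.2.2.2.1, h.2.2.2.2⟩
          · rw [if_neg e3]
            symm
            refine sum_eq_zero fun m2 _ => ?_
            rw [if_neg]
            intro h
            exact e3 h.2.2.1
    rw [h3] at h2
    set T := ‖∑ m ∈ (II N).filter (fun m => Nat.Coprime m n),
        α m * F ((m : ℝ) * n) * kf n η m‖ with hT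
    have hT0 : 0 ≤ T := norm_nonneg _
    have h4 : ((PP P).card : ℝ) ≤ 2 * (((PP P).filter (fun p => ¬ p ∣ n)).card : ℝ) := by
      exact_mod_cast hPP n hn
    have h5 : ((PP P).card : ℝ) ^ 2 * T ^ 2 ≤
        4 * ((((PP P).filter (fun p => ¬ p ∣ n)).card : ℝ) ^ 2 * T ^ 2) := by
      have : ((PP P).card : ℝ) ^ 2 ≤
          (2 * (((PP P).filter (fun p => ¬ p ∣ n)).card : ℝ)) ^ 2 :=
        pow_le_pow_left₀ hc.le h4 2
      nlinarith [sq_nonneg T]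
    have hn0 : (0 : ℝ) < n := by exact_mod_cast hn1
    have h6 : 0 ≤ (A n).re := by
      have h7 : 0 ≤ (n : ℝ) * (A n).re := le_trans (by positivity) h2
      exact nonneg_of_mul_nonneg_right h7 hn0
    have h7 : (n : ℝ) * (A n).re ≤ 3 * N * (A n).re := by
      apply mul_le_mul_of_nonneg_right _ h6
      have : (n : ℝ) ≤ 2 * N + 1 := by exact_mod_cast hn'.2
      linarith
    rw [div_mul_eq_mul_div, le_div_iff₀ (by positivity)]
    calc T ^ 2 * ((PP P).card : ℝ) ^ 2 = ((PP P).card : ℝ) ^ 2 * T ^ 2 := by ring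
      _ ≤ 4 * ((((PP P).filter (fun p => ¬ p ∣ n)).card : ℝ) ^ 2 * T ^ 2) := h5
      _ ≤ 4 * (n * (A n).re) := by linarith
      _ ≤ 4 * (3 * N * (A n).re) := by linarith
      _ = 12 * N * (A n).re := by ring
  have hA2 := n2_nonneg (II N) α
  have h2 : (∑ n ∈ II N, (A n).re) ≤ 200 * N * (PP P).card * n2 (II N) α +
      ‖UU F η N P α‖ := by
    rw [← Complex.re_sum]
    have h3 : ∑ n ∈ II N, A n =
        (∑ n ∈ II N, ∑ p1 ∈ PP P, ∑ p2 ∈ PP P, ∑ m1 ∈ II N, ∑ m2 ∈ II N,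
          (if CC n p1 p2 m1 m2 ∧ p1 = p2 then tt η α F n p1 p2 m1 m2 else 0)) +
        (∑ n ∈ II N, ∑ p1 ∈ PP P, ∑ p2 ∈ PP P, ∑ m1 ∈ II N, ∑ m2 ∈ II N,
          (if CC n p1 p2 m1 m2 ∧ p1 ≠ p2 ∧ (p1 ∣ m2 ∨ p2 ∣ m1) then
            tt η α F n p1 p2 m1 m2 else 0)) +
        (∑ n ∈ II N, ∑ p1 ∈ PP P, ∑ p2 ∈ PP P, ∑ m1 ∈ II N, ∑ m2 ∈ II N,
          (if CC n p1 p2 m1 m2 ∧ p1 ≠ p2 ∧ ¬ (p1 ∣ m2 ∨ p2 ∣ m1) then
            tt η α F n p1 p2 m1 m2 else 0)) := by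
      rw [hA]
      simp only [← sum_add_distrib]
      refine sum_congr rfl fun n _ => sum_congr rfl fun p1 _ => sum_congr rfl fun p2 _ =>
        sum_congr rfl fun m1 _ => sum_congr rfl fun m2 _ => ?_
      by_cases e1 : CC n p1 p2 m1 m2
      · by_cases e2 : p1 = p2
        · simp [e1, e2]
        · by_cases e3 : p1 ∣ m2 ∨ p2 ∣ m1
          · simp [e1, e2, e3]
          · simp [e1, e2, e3]
      · simp [e1]
    rw [h3, third N P hN η α F]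
    refine (Complex.re_le_norm _).trans ?_
    refine (norm_add_le _ _).trans ?_
    refine add_le_add ((norm_add_le _ _).trans ?_) le_rfl
    have f1 := first2 N P hN η α F hF
    have f2 := second2 N P hN hP hPN η α hw F hF
    have f3 : (0 : ℝ) ≤ N * (PP P).card * n2 (II N) α := by positivity
    linarith
  calc _ ≤ ∑ n ∈ II N, 12 * N / ((PP P).card : ℝ) ^ 2 * (A n).re := sum_le_sum h1
    _ = 12 * N / ((PP P).card : ℝ) ^ 2 * ∑ n ∈ II N, (A n).re := by rw [mul_sum]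
    _ ≤ _ := by
        apply mul_le_mul_of_nonneg_left h2
        positivity

end Pool.Agent.H35.KL
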